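import Pool.Agent.Q73.Hd.Dom

/-!
# The domain is connected
-/

set_option autoImplicit false

open Complex Set Filter Topology Metric InnerProductSpace

namespace Q73.Hardy

/-- the polar coordinates -/
noncomputable def pol (p : ℝ × ℝ) : ℂ := (p.1 : ℂ) * exp ((p.2 : ℂ) * I)

theorem pol_cont : Continuous pol := by unfold pol; fun_prop

theorem pol_pow (r θ : ℝ) : pol (r, θ) ^ 7 = pol (r ^ 7, 7 * θ) := by
  unfold pol
  rw [mul_pow, ← Complex.exp_nat_mul]
  push_cast
  congr 2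
  ring

theorem pol_im (r θ : ℝ) : (pol (r, θ)).im = r * Real.sin θ := by
  unfold pol
  rw [Complex.im_ofReal_mul, Complex.exp_ofReal_mul_I_im]

theorem pol_norm {r θ : ℝ} (hr : 0 ≤ r) : ‖pol (r, θ)‖ = r := by
  unfold pol
  rw [norm_mul, Complex.norm_exp_ofReal_mul_I, mul_one, norm_real, Real.norm_eq_abs,
    abs_of_nonneg hr]

/-- the open sectors between the rays -/
def sector (j : ℤ) : Set ℂ :=
  pol '' (Ioi (0 : ℝ) ×ˢ Ioo (Real.pi * j / 7) (Real.pi * (j + 1) / 7))

theorem sector_conn (j : ℤ) : IsPreconnected (sector j) :=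
  (isPreconnected_Ioi.prod isPreconnected_Ioo).image _ pol_cont.continuousOn

theorem sin_ne {θ : ℝ} {j : ℤ} (h1 : Real.pi * j < θ) (h2 : θ < Real.pi * (j + 1)) :
    Real.sin θ ≠ 0 := by
  intro h
  obtain ⟨n, hn⟩ := Real.sin_eq_zero_iff.1 h
  have hpi := Real.pi_pos
  rw [← hn] at h1 h2
  have a1 : (j : ℝ) < n := by
    rw [mul_comm] at h1
    exact lt_of_mul_lt_mul_right h1 hpi.le
  have a2 : (n : ℝ) < j + 1 := by
    rw [mul_comm Real.pi] at h2
    exact lt_of_mul_lt_mul_right h2 hpi.le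
  have a3 : j < n := by exact_mod_cast a1
  have a4 : n < j + 1 := by exact_mod_cast a2
  omega

theorem sector_im {j : ℤ} {z : ℂ} (hz : z ∈ sector j) : (z ^ 7).im ≠ 0 := by
  obtain ⟨⟨r, θ⟩, ⟨hr, hθ⟩, rfl⟩ := hz
  simp only [mem_Ioi, mem_Ioo] at hr hθ
  rw [pol_pow, pol_im]
  refine mul_ne_zero (pow_ne_zero _ hr.ne') (sin_ne (j := j) ?_ ?_)
  · linarith [hθ.1]
  · linarith [hθ.2]

theorem mem_sector {z : ℂ} (hz : (z ^ 7).im ≠ 0) : ∃ j, z ∈ sector j := by
  have hz0 : z ≠ 0 := by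
    rintro rfl
    apply hz
    simp
  have hpi := Real.pi_pos
  have h1 : z = pol (‖z‖, arg z) := (norm_mul_exp_arg_mul_I z).symm
  have h2 : Real.sin (7 * arg z) ≠ 0 := by
    intro h
    apply hz
    rw [h1, pol_pow, pol_im, h, mul_zero]
  refine ⟨⌊7 * arg z / Real.pi⌋, ⟨(‖z‖, arg z), ⟨?_, ?_, ?_⟩, h1.symm⟩⟩
  · exact norm_pos_iff.2 hz0
  · have h3 := Int.floor_le (7 * arg z / Real.pi)
    have h4 : ((⌊7 * arg z / Real.pi⌋ : ℤ) : ℝ) ≠ 7 * arg z / Real.pi := by
      intro h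
      apply h2
      rw [Real.sin_eq_zero_iff]
      refine ⟨⌊7 * arg z / Real.pi⌋, ?_⟩
      rw [h]
      field_simp
    have h5 := lt_of_le_of_ne h3 h4
    rw [lt_div_iff₀ hpi] at h5
    simp only
    linarith
  · have h3 := Int.lt_floor_add_one (7 * arg z / Real.pi)
    rw [div_lt_iff₀ hpi] at h3
    simp only
    linarith

theorem sphere_sub {r₀ : ℝ} (h0 : 0 < r₀) (hT : r₀ ∉ T) : sphere (0 : ℂ) r₀ ⊆ D := by
  intro z hz
  rw [mem_sphere_zero_iff_norm] at hz
  have key : ∀ w : ℂ, ‖w‖ = r₀ → L (w ^ 7) ∉ K := by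
    intro w hw h
    apply hT
    have h1 := E_im h
    have h2 := E_re h
    have h3 : w ^ 7 = -(r₀ : ℂ) ^ 7 := by
      have h4 : w ^ 7 = (((w ^ 7).re : ℝ) : ℂ) := Complex.ext (by simp) (by simp [h1])
      have h5 : |(w ^ 7).re| = r₀ ^ 7 := by
        rw [← hw, ← norm_pow, ← Real.norm_eq_abs, ← Complex.norm_real, ← h4]
      rw [abs_of_nonpos h2] at h5
      rw [h4, show (w ^ 7).re = -r₀ ^ 7 by linarith]
      push_cast
      rfl
    rw [h3] at h
    exact h
  refine ⟨key z hz, ?_⟩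
  have h1 : -z ^ 7 = (-z) ^ 7 := by ring
  rw [h1]
  exact key (-z) (by rwa [norm_neg])

theorem D_conn : IsPreconnected D := by
  obtain ⟨r₀, h0, hT⟩ := exists_radius
  set A : Set ℂ := ⋃ j : ℤ, (sector j ∪ sphere 0 r₀) with hA
  have hr : 1 < Module.rank ℝ ℂ := by
    rw [Complex.rank_real_complex]
    exact Cardinal.one_lt_two
  have hAc : IsPreconnected A := by
    apply isPreconnected_iUnion
    · refine ⟨(r₀ : ℂ), mem_iInter.2 fun j => Or.inr ?_⟩
      rw [mem_sphere_zero_iff_norm, norm_real, Real.norm_eq_abs, abs_of_pos h0]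
    · intro j
      have hpi := Real.pi_pos
      set θ : ℝ := Real.pi * (j + 1 / 2) / 7 with hθ
      refine IsPreconnected.union (pol (r₀, θ)) ?_ ?_ (sector_conn j)
        (isPreconnected_sphere hr 0 r₀)
      · refine ⟨(r₀, θ), ⟨h0, ?_, ?_⟩, rfl⟩
        · simp only [hθ]
          linarith
        · simp only [hθ]
          linarith
      · rw [mem_sphere_zero_iff_norm, pol_norm h0.le]
  refine hAc.subset_closure ?_ ?_
  · refine iUnion_subset fun j => union_subset ?_ (sphere_sub h0 hT)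
    intro z hz
    exact mem_D_of_im (sector_im hz)
  · intro z hz
    have hz0 : z ≠ 0 := by
      rintro rfl
      exact zero_not_mem_D hz
    by_cases him : (z ^ 7).im = 0
    · have hre : (z ^ 7).re ≠ 0 := by
        intro h
        exact pow_ne_zero 7 hz0 (Complex.ext h him)
      have htend : Tendsto (fun t : ℝ => z * exp ((t : ℂ) * I)) (𝓝[>] 0) (𝓝 z) := by
        have : Tendsto (fun t : ℝ => z * exp ((t : ℂ) * I)) (𝓝 0)
            (𝓝 (z * exp (((0 : ℝ) : ℂ) * I))) := Continuous.tendsto (by fun_prop) 0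
        simp only [ofReal_zero, zero_mul, Complex.exp_zero, mul_one] at this
        exact this.mono_left nhdsWithin_le_nhds
      refine mem_closure_of_tendsto htend ?_
      have hpi := Real.pi_pos
      have hIoo : Ioo (0 : ℝ) (Real.pi / 7) ∈ 𝓝[>] (0 : ℝ) :=
        Ioo_mem_nhdsGT (by positivity)
      filter_upwards [hIoo] with t ht
      have h1 : ((z * exp ((t : ℂ) * I)) ^ 7).im ≠ 0 := by
        rw [mul_pow, ← Complex.exp_nat_mul]
        have e : ((7 : ℕ) : ℂ) * ((t : ℂ) * I) = ((7 * t : ℝ) : ℂ) * I := by push_cast; ring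
        rw [e, Complex.mul_im, him, zero_mul, add_zero, Complex.exp_ofReal_mul_I_im]
        refine mul_ne_zero hre (sin_ne (j := 0) ?_ ?_)
        · simp only [Int.cast_zero, mul_zero]
          linarith [ht.1]
        · simp only [Int.cast_zero, zero_add, mul_one]
          linarith [ht.2]
      obtain ⟨j, hj⟩ := mem_sector h1
      exact mem_iUnion.2 ⟨j, Or.inl hj⟩
    · obtain ⟨j, hj⟩ := mem_sector him
      exact subset_closure (mem_iUnion.2 ⟨j, Or.inl hj⟩)

end Q73.Hardy
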