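import Mathlib

/-!
# Hölder functions which are locally constant off a small set
-/

set_option autoImplicit false

open MeasureTheory Set Filter Topology Measure
open scoped ENNReal NNReal

namespace Q73.Hardy

theorem holder_cont {a b K : ℝ} {p : ℝ → ℝ} (hK : 0 ≤ K)
    (hp : ∀ x ∈ Icc a b, ∀ y ∈ Icc a b, |p x - p y| ≤ K * √|x - y|) :
    HolderOnWith K.toNNReal (1 / 2) p (Icc a b) := by
  intro x hx y hy
  rw [edist_dist, edist_dist, Real.dist_eq, Real.dist_eq,
    ENNReal.ofReal_rpow_of_nonneg (abs_nonneg _) (by positivity)]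
  have h1 : (K.toNNReal : ℝ≥0∞) = ENNReal.ofReal K := rfl
  rw [h1, ← ENNReal.ofReal_mul hK]
  apply ENNReal.ofReal_le_ofReal
  have := hp x hx y hy
  rw [Real.sqrt_eq_rpow] at this
  simpa using this

/-- A function which is Hölder of exponent `1/2` on an interval, and locally constant off a set of
zero `1/2`-dimensional measure, is constant. -/
theorem const_real {a b K : ℝ} {p : ℝ → ℝ} {T : Set ℝ} (hK : 0 ≤ K)
    (hp : ∀ x ∈ Icc a b, ∀ y ∈ Icc a b, |p x - p y| ≤ K * √|x - y|)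
    (hT : μH[1 / 2] (T ∩ Icc a b) = 0)
    (hloc : ∀ x ∈ Icc a b, x ∉ T → ∀ᶠ y in 𝓝[Icc a b] x, p y = p x) :
    ∀ x ∈ Icc a b, ∀ y ∈ Icc a b, p x = p y := by
  have hH := holder_cont hK hp
  have hcont : ContinuousOn p (Icc a b) := hH.continuousOn (by norm_num)
  have h1 : volume (p '' (T ∩ Icc a b)) = 0 := by
    have h2 := (hH.mono inter_subset_right).hausdorffMeasure_image_le (s := T ∩ Icc a b)
      (by norm_num) (d := 1) zero_le_one
    rw [hausdorffMeasure_real] at h2
    have e : (((1 / 2 : ℝ≥0) : ℝ) * 1) = 1 / 2 := by norm_num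
    rw [e, hT, mul_zero] at h2
    exact le_antisymm h2 bot_le
  have h3 : volume (p '' (Icc a b \ T)) = 0 := by
    obtain ⟨t, -, htc, hcov⟩ := TopologicalSpace.countable_cover_nhdsWithin
      (f := fun x => {y | p y = p x}) (s := Icc a b \ T)
      (fun x hx => nhdsWithin_mono x sdiff_subset (hloc x hx.1 hx.2))
    refine measure_mono_null ?_ ((htc.image p).measure_zero volume)
    rintro _ ⟨x, hx, rfl⟩
    have := hcov hx
    rw [mem_iUnion₂] at this
    obtain ⟨y, hy, hxy⟩ := this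
    exact ⟨y, hy, hxy.symm⟩
  have h4 : volume (p '' Icc a b) = 0 := by
    have : p '' Icc a b ⊆ p '' (T ∩ Icc a b) ∪ p '' (Icc a b \ T) := by
      rintro _ ⟨x, hx, rfl⟩
      by_cases hxT : x ∈ T
      · exact Or.inl ⟨x, ⟨hxT, hx⟩, rfl⟩
      · exact Or.inr ⟨x, ⟨hx, hxT⟩, rfl⟩
    exact measure_mono_null this (measure_union_null h1 h3)
  have h5 : (p '' Icc a b).OrdConnected := (isPreconnected_Icc.image p hcont).ordConnected
  have key : ∀ x ∈ Icc a b, ∀ y ∈ Icc a b, ¬ p x < p y := by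
    intro x hx y hy hlt
    have h6 : Icc (p x) (p y) ⊆ p '' Icc a b := h5.out ⟨x, hx, rfl⟩ ⟨y, hy, rfl⟩
    have h7 := measure_mono_null h6 h4
    rw [Real.volume_Icc, ENNReal.ofReal_eq_zero] at h7
    linarith
  intro x hx y hy
  exact le_antisymm (not_lt.1 (key y hy x hx)) (not_lt.1 (key x hx y hy))

theorem const_complex {a b K : ℝ} {p : ℝ → ℂ} {T : Set ℝ} (hK : 0 ≤ K)
    (hp : ∀ x ∈ Icc a b, ∀ y ∈ Icc a b, ‖p x - p y‖ ≤ K * √|x - y|)
    (hT : μH[1 / 2] (T ∩ Icc a b) = 0)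
    (hloc : ∀ x ∈ Icc a b, x ∉ T → ∀ᶠ y in 𝓝[Icc a b] x, p y = p x) :
    ∀ x ∈ Icc a b, ∀ y ∈ Icc a b, p x = p y := by
  intro x hx y hy
  apply Complex.ext
  · refine const_real (p := fun x => (p x).re) hK (fun x hx y hy => ?_) hT
      (fun x hx hxT => ?_) x hx y hy
    · rw [← Complex.sub_re]
      exact (Complex.abs_re_le_norm _).trans (hp x hx y hy)
    · filter_upwards [hloc x hx hxT] with y hy
      rw [hy]
  · refine const_real (p := fun x => (p x).im) hK (fun x hx y hy => ?_) hT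
      (fun x hx hxT => ?_) x hx y hy
    · rw [← Complex.sub_im]
      exact (Complex.abs_im_le_norm _).trans (hp x hx y hy)
    · filter_upwards [hloc x hx hxT] with y hy
      rw [hy]

end Q73.Hardy
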