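import Mathlib

/-!
# Harnack inequalities for positive harmonic functions in the plane
-/

set_option autoImplicit false

open Metric Set Filter Topology InnerProductSpace Complex

namespace Q73.Hardy

/-- Harnack's inequality in a disc. -/
theorem harnack {u : ℂ → ℝ} {c : ℂ} {R : ℝ} (hu : HarmonicOnNhd u (closedBall c R))
    (h0 : ∀ z ∈ sphere c R, 0 ≤ u z) {w : ℂ} (hw : w ∈ ball c R) :
    u w ≤ (R + ‖w - c‖) / (R - ‖w - c‖) * u c := by
  have hR : 0 < R := pos_of_mem_ball hw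
  have hc := hu.circleAverage_poissonKernel_smul hw
  have hm : Real.circleAverage u c R = u c := by
    apply HarmonicOnNhd.circleAverage_eq
    rwa [abs_of_pos hR]
  have hcont : ContinuousOn u (sphere c |R|) := by
    rw [abs_of_pos hR]
    exact hu.continuousOn.mono sphere_subset_closedBall
  have hne : ∀ z ∈ sphere c |R|, z - c - (w - c) ≠ 0 := by
    rw [abs_of_pos hR]
    intro z hz h
    rw [sub_sub_sub_cancel_right, sub_eq_zero] at h
    subst h
    rw [mem_sphere] at hz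
    rw [mem_ball] at hw
    linarith
  have h1 : CircleIntegrable (poissonKernel c w • u) c R := by
    apply ContinuousOn.circleIntegrable'
    refine ContinuousOn.smul ?_ hcont
    have : poissonKernel c w = fun z => (‖z - c‖ ^ 2 - ‖w - c‖ ^ 2) / ‖(z - c) - (w - c)‖ ^ 2 :=
      funext fun z => poissonKernel_def c w z
    rw [this]
    refine ContinuousOn.div (by fun_prop) (by fun_prop) ?_
    intro z hz
    exact pow_ne_zero _ (norm_ne_zero_iff.2 (hne z hz))
  have h2 : CircleIntegrable (((R + ‖w - c‖) / (R - ‖w - c‖)) • u) c R := by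
    apply ContinuousOn.circleIntegrable'
    exact hcont.const_smul _
  calc u w = Real.circleAverage (poissonKernel c w • u) c R := hc.symm
    _ ≤ Real.circleAverage (((R + ‖w - c‖) / (R - ‖w - c‖)) • u) c R := by
        refine Real.circleAverage_mono h1 h2 fun z hz => ?_
        rw [abs_of_pos hR] at hz
        have h3 := re_herglotzRieszKernel_le hz hw
        have h4 : poissonKernel c w z = ((z - c + (w - c)) / ((z - c) - (w - c))).re := by
          rw [poissonKernel_eq_re_herglotzRieszKernel]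
          rfl
        simp only [Pi.smul_apply', Pi.smul_apply, smul_eq_mul]
        rw [h4]
        exact mul_le_mul_of_nonneg_right h3 (h0 z hz)
    _ = (R + ‖w - c‖) / (R - ‖w - c‖) * u c := by
        rw [Real.circleAverage_smul, hm, smul_eq_mul]

/-- A harmonic function composed with a holomorphic function. -/
theorem harmonicAt_comp {u : ℂ → ℝ} {φ : ℂ → ℂ} {z : ℂ} (hu : HarmonicAt u (φ z))
    (hφ : AnalyticAt ℂ φ z) : HarmonicAt (fun w => u (φ w)) z := by
  obtain ⟨ε, hε, hsub⟩ := Metric.isOpen_iff.1 (isOpen_setOfPred_harmonicAt (f := u)) _ hu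
  obtain ⟨F, hF, hre⟩ := InnerProductSpace.HarmonicOnNhd.exists_analyticOnNhd_ball_re_eq
    (f := u) (fun y hy => hsub hy)
  have h1 : AnalyticAt ℂ (fun w => F (φ w)) z := (hF (φ z) (mem_ball_self hε)).comp hφ
  have h2 := h1.harmonicAt_re
  refine (harmonicAt_congr_nhds ?_).1 h2
  have h3 : ∀ᶠ w in 𝓝 z, φ w ∈ ball (φ z) ε := hφ.continuousAt (ball_mem_nhds _ hε)
  filter_upwards [h3] with w hw
  exact hre hw

/-- positive harmonic functions on `D` -/
def Pos (D : Set ℂ) (u : ℂ → ℝ) : Prop := (∀ z ∈ D, HarmonicAt u z) ∧ ∀ z ∈ D, 0 ≤ u z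

theorem local_harnack {D : Set ℂ} (hD : IsOpen D) {x : ℂ} (hx : x ∈ D) :
    ∃ r > 0, ball x r ⊆ D ∧ ∀ u, Pos D u → ∀ y ∈ ball x r, u y ≤ 3 * u x ∧ u x ≤ 3 * u y := by
  obtain ⟨ε, hε, hsub⟩ := Metric.isOpen_iff.1 hD x hx
  have key : ∀ u, Pos D u → ∀ a b : ℂ, closedBall a (ε / 2) ⊆ D → dist b a < ε / 4 →
      u b ≤ 3 * u a := by
    intro u hu a b ha hab
    have hb : b ∈ ball a (ε / 2) := by rw [mem_ball]; linarith
    have h1 := harnack (fun z hz => hu.1 z (ha hz))
      (fun z hz => hu.2 z (ha (sphere_subset_closedBall hz))) hb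
    have h2 : 0 ≤ u a := hu.2 a (ha (mem_closedBall_self (by linarith)))
    rw [dist_eq_norm] at hab
    refine h1.trans (mul_le_mul_of_nonneg_right ?_ h2)
    rw [div_le_iff₀ (by linarith)]
    linarith
  refine ⟨ε / 4, by linarith, (ball_subset_ball (by linarith)).trans hsub, fun u hu y hy => ?_⟩
  rw [mem_ball] at hy
  constructor
  · refine key u hu x y (fun z hz => hsub ?_) hy
    rw [mem_closedBall] at hz
    rw [mem_ball]
    linarith
  · refine key u hu y x (fun z hz => hsub ?_) (by rwa [dist_comm])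
    rw [mem_closedBall] at hz
    rw [mem_ball]
    have := dist_triangle z y x
    linarith

theorem chain_harnack {D : Set ℂ} (hD : IsOpen D) (hc : IsPreconnected D) {x y : ℂ} (hx : x ∈ D)
    (hy : y ∈ D) : ∃ M : ℝ, 0 < M ∧ ∀ u, Pos D u → u x ≤ M * u y ∧ u y ≤ M * u x := by
  refine hc.induction₂ (fun x y => ∃ M : ℝ, 0 < M ∧ ∀ u, Pos D u → u x ≤ M * u y ∧ u y ≤ M * u x)
    ?_ ?_ ?_ hx hy
  · intro x hx
    obtain ⟨r, hr, hsub, h⟩ := local_harnack hD hx
    filter_upwards [mem_nhdsWithin_of_mem_nhds (ball_mem_nhds x hr)] with y hy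
    exact ⟨3, by norm_num, fun u hu => ⟨(h u hu y hy).2, (h u hu y hy).1⟩⟩
  · rintro x y z - - - ⟨M, hM, h⟩ ⟨M', hM', h'⟩
    refine ⟨M * M', mul_pos hM hM', fun u hu => ⟨?_, ?_⟩⟩
    · calc u x ≤ M * u y := (h u hu).1
        _ ≤ M * (M' * u z) := mul_le_mul_of_nonneg_left (h' u hu).1 hM.le
        _ = M * M' * u z := by ring
    · calc u z ≤ M' * u y := (h' u hu).2
        _ ≤ M' * (M * u x) := mul_le_mul_of_nonneg_left (h u hu).2 hM'.le
        _ = M * M' * u x := by ring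
  · rintro x y - - ⟨M, hM, h⟩
    exact ⟨M, hM, fun u hu => ⟨(h u hu).2, (h u hu).1⟩⟩

theorem compact_harnack {D : Set ℂ} (hD : IsOpen D) (hc : IsPreconnected D) {Γ : Set ℂ}
    (hΓ : IsCompact Γ) (hsub : Γ ⊆ D) :
    ∃ M : ℝ, 1 ≤ M ∧ ∀ u, Pos D u → ∀ x ∈ Γ, ∀ y ∈ Γ, u x ≤ M * u y := by
  rcases Γ.eq_empty_or_nonempty with rfl | ⟨x₀, hx₀⟩
  · exact ⟨1, le_rfl, fun u _ x hx => absurd hx (notMem_empty x)⟩
  have hx₀D := hsub hx₀
  have key : ∃ M : ℝ, 1 ≤ M ∧ ∀ u, Pos D u → ∀ x ∈ Γ, u x ≤ M * u x₀ ∧ u x₀ ≤ M * u x := by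
    refine hΓ.induction_on (p := fun s => ∃ M : ℝ, 1 ≤ M ∧ ∀ u, Pos D u → ∀ x ∈ s,
      x ∈ D → u x ≤ M * u x₀ ∧ u x₀ ≤ M * u x) ?_ ?_ ?_ ?_ |>.imp ?_
    · exact ⟨1, le_rfl, fun u _ x hx => absurd hx (notMem_empty x)⟩
    · rintro s t hst ⟨M, hM, h⟩
      exact ⟨M, hM, fun u hu x hx => h u hu x (hst hx)⟩
    · rintro s t ⟨M, hM, h⟩ ⟨M', hM', h'⟩
      have h0 : ∀ u, Pos D u → 0 ≤ u x₀ := fun u hu => hu.2 x₀ hx₀D
      refine ⟨max M M', le_max_of_le_left hM, fun u hu x hx hxD => ?_⟩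
      have h1 := h0 u hu
      have h2 := hu.2 x hxD
      rcases hx with hx | hx
      · obtain ⟨a, b⟩ := h u hu x hx hxD
        exact ⟨a.trans (mul_le_mul_of_nonneg_right (le_max_left _ _) h1),
          b.trans (mul_le_mul_of_nonneg_right (le_max_left _ _) h2)⟩
      · obtain ⟨a, b⟩ := h' u hu x hx hxD
        exact ⟨a.trans (mul_le_mul_of_nonneg_right (le_max_right _ _) h1),
          b.trans (mul_le_mul_of_nonneg_right (le_max_right _ _) h2)⟩
    · intro x hx
      obtain ⟨r, hr, hb, h⟩ := local_harnack hD (hsub hx)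
      obtain ⟨M, hM, hM'⟩ := chain_harnack hD hc (hsub hx) hx₀D
      refine ⟨ball x r, mem_nhdsWithin_of_mem_nhds (ball_mem_nhds x hr), max 1 (3 * M),
        le_max_left _ _, fun u hu y hy hyD => ?_⟩
      have h1 := h u hu y hy
      have h2 := hM' u hu
      have h3 := hu.2 x₀ hx₀D
      have h4 := hu.2 y hyD
      have h5 := hu.2 x (hsub hx)
      constructor
      · calc u y ≤ 3 * u x := h1.1
          _ ≤ 3 * (M * u x₀) := by linarith [h2.1]
          _ = 3 * M * u x₀ := by ring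
          _ ≤ max 1 (3 * M) * u x₀ := mul_le_mul_of_nonneg_right (le_max_right _ _) h3
      · calc u x₀ ≤ M * u x := h2.2
          _ ≤ M * (3 * u y) := mul_le_mul_of_nonneg_left h1.2 hM.le
          _ = 3 * M * u y := by ring
          _ ≤ max 1 (3 * M) * u y := mul_le_mul_of_nonneg_right (le_max_right _ _) h4
    · rintro M ⟨hM, h⟩
      exact ⟨hM, fun u hu x hx => h u hu x hx (hsub hx)⟩
  obtain ⟨M, hM, h⟩ := key
  refine ⟨M * M, by nlinarith, fun u hu x hx y hy => ?_⟩
  calc u x ≤ M * u x₀ := (h u hu x hx).1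
    _ ≤ M * (M * u y) := mul_le_mul_of_nonneg_left (h u hu y hy).2 (by linarith)
    _ = M * M * u y := by ring

end Q73.Hardy
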