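import Pool.Agent.Q73.Hd.Two
import Pool.Agent.Q73.Hd.Harn

/-!
# Local removability for functions with a harmonic majorant
-/

set_option autoImplicit false

open Complex MeasureTheory Set Filter Topology Metric intervalIntegral Measure InnerProductSpace
open scoped ComplexConjugate Interval

namespace Q73.Hardy

variable {f : ℂ → ℂ} {u : ℂ → ℝ} {r s C : ℝ} {T : Set ℝ}

theorem Up.mono (h : Up f s C) {C' : ℝ} (hC : C ≤ C') : Up f s C' where
  s_pos := h.s_pos
  C_nonneg := h.C_nonneg.trans hC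
  diff := h.diff
  bd := fun z h1 h2 h3 => (h.bd z h1 h2 h3).trans
    (mul_le_mul_of_nonneg_right hC (Real.rpow_nonneg h2.le _))

theorem up_of_majorant (hr : 0 < r)
    (hf : ∀ z ∈ ball (0 : ℂ) r, 0 < z.im → DifferentiableAt ℂ f z)
    (hu : ∀ z ∈ ball (0 : ℂ) r, 0 < z.im → HarmonicAt u z)
    (h0 : ∀ z ∈ ball (0 : ℂ) r, 0 < z.im → 0 ≤ u z)
    (hb : ∀ z ∈ ball (0 : ℂ) r, 0 < z.im → ‖f z‖ ^ 2 ≤ u z) : ∃ C, Up f (r / 4) C := by
  set s := r / 4 with hs
  have hs0 : 0 < s := by rw [hs]; linarith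
  have hmem : ∀ z : ℂ, |z.re| ≤ s → |z.im| ≤ s → z ∈ ball (0 : ℂ) r := by
    intro z h1 h2
    rw [mem_ball_zero_iff]
    have := Complex.norm_le_abs_re_add_abs_im z
    linarith
  -- a bound on the horizontal line at the height `s`
  obtain ⟨M, hM⟩ : ∃ M, ∀ x : ℝ, |x| ≤ s → u ((x : ℂ) + (s : ℂ) * I) ≤ M := by
    have hc : ContinuousOn (fun x : ℝ => u ((x : ℂ) + (s : ℂ) * I)) (Icc (-s) s) := by
      intro x hx
      have h1 : HarmonicAt u ((x : ℂ) + (s : ℂ) * I) := by
        apply hu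
        · apply hmem
          · rw [re_line]; exact abs_le.2 hx
          · rw [im_line, abs_of_pos hs0]
        · rw [im_line]; exact hs0
      exact (h1.1.continuousAt.comp (f := fun x : ℝ => ((x : ℂ) + (s : ℂ) * I))
        (by fun_prop)).continuousWithinAt
    obtain ⟨M, hM⟩ := isCompact_Icc.exists_bound_of_continuousOn hc
    exact ⟨M, fun x hx => (le_abs_self _).trans (hM x (abs_le.1 hx))⟩
  have hM0 : 0 ≤ M := by
    refine le_trans ?_ (hM 0 (by rw [abs_zero]; exact hs0.le))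
    apply h0
    · apply hmem
      · rw [re_line, abs_zero]; exact hs0.le
      · rw [im_line, abs_of_pos hs0]
    · rw [im_line]; exact hs0
  refine ⟨√(4 * s * M), hs0, Real.sqrt_nonneg _, ?_, ?_⟩
  · intro z h1 h2 h3
    exact hf z (hmem z h1 (by rw [abs_of_pos h2]; exact h3)) h2
  · intro z h1 h2 h3
    set c : ℂ := (z.re : ℂ) + (s : ℂ) * I with hc
    set y := z.im with hy
    have hsub : ∀ w ∈ closedBall c (s - y / 2), w ∈ ball (0 : ℂ) r ∧ 0 < w.im := by
      intro w hw
      rw [mem_closedBall, dist_eq_norm] at hw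
      have h5 : |(w - c).re| ≤ s - y / 2 := (abs_re_le_norm _).trans hw
      have h6 : |(w - c).im| ≤ s - y / 2 := (abs_im_le_norm _).trans hw
      rw [sub_re, hc, re_line, abs_le] at h5
      rw [sub_im, hc, im_line, abs_le] at h6
      refine ⟨?_, by linarith⟩
      rw [mem_ball_zero_iff]
      have h7 : ‖w‖ ≤ ‖w - c‖ + ‖c‖ := by
        calc ‖w‖ = ‖(w - c) + c‖ := by rw [sub_add_cancel]
          _ ≤ _ := norm_add_le _ _
      have h8 : ‖c‖ ≤ |z.re| + s := by
        rw [hc]
        refine (norm_add_le _ _).trans ?_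
        rw [norm_mul, norm_I, mul_one, norm_real, norm_real, Real.norm_eq_abs, Real.norm_eq_abs,
          abs_of_pos hs0]
      linarith
    have hzc : ‖z - c‖ = s - y := by
      have : z - c = ((y - s : ℝ) : ℂ) * I := by
        apply Complex.ext
        · rw [sub_re, hc, re_line]; simp
        · rw [sub_im, hc, im_line, ← hy]; simp
      rw [this, norm_mul, norm_I, mul_one, norm_real, Real.norm_eq_abs, abs_of_nonpos (by linarith)]
      ring
    have hzb : z ∈ ball c (s - y / 2) := by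
      rw [mem_ball, dist_eq_norm, hzc]
      linarith
    have hH := harnack (u := u) (fun w hw => hu w (hsub w hw).1 (hsub w hw).2)
      (fun w hw => h0 w (hsub w (sphere_subset_closedBall hw)).1
        (hsub w (sphere_subset_closedBall hw)).2) hzb
    rw [hzc] at hH
    have hcM : u c ≤ M := hM _ h1
    have hc0 : 0 ≤ u c := h0 c (hsub c (mem_closedBall_self (by linarith))).1
      (hsub c (mem_closedBall_self (by linarith))).2
    have h9 : u z ≤ 4 * s * M / y := by
      refine hH.trans ?_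
      have e1 : (s - y / 2 + (s - y)) / (s - y / 2 - (s - y)) ≤ 4 * s / y := by
        rw [div_le_div_iff₀ (by linarith) h2]
        nlinarith
      calc _ ≤ 4 * s / y * u c := mul_le_mul_of_nonneg_right e1 hc0
        _ ≤ 4 * s / y * M := mul_le_mul_of_nonneg_left hcM (by positivity)
        _ = 4 * s * M / y := by ring
    have hz := hmem z h1 (by rw [← hy, abs_of_pos h2]; exact h3)
    have h10 : ‖f z‖ ^ 2 ≤ 4 * s * M / y := (hb z hz h2).trans h9
    have h11 : ‖f z‖ ≤ √(4 * s * M / y) := Real.le_sqrt_of_sq_le h10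
    refine h11.trans (le_of_eq ?_)
    rw [Real.sqrt_div (by positivity), Real.rpow_neg h2.le, ← Real.sqrt_eq_rpow, div_eq_mul_inv]

/-- harmonicity and complex conjugation -/
theorem harmonicAt_conj {z : ℂ} (hu : HarmonicAt u (conj z)) :
    HarmonicAt (fun w => u (conj w)) z := by
  obtain ⟨ε, hε, hsub⟩ := Metric.isOpen_iff.1 (isOpen_setOfPred_harmonicAt (f := u)) _ hu
  obtain ⟨F, hF, hre⟩ := InnerProductSpace.HarmonicOnNhd.exists_analyticOnNhd_ball_re_eq
    (f := u) (fun y hy => hsub hy)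
  have h1 : AnalyticAt ℂ (conj ∘ F ∘ conj) z := by
    have h2 : DifferentiableOn ℂ (conj ∘ F ∘ conj) (ball z ε) := by
      intro w hw
      apply DifferentiableAt.differentiableWithinAt
      rw [differentiableAt_conj_conj_iff]
      apply (hF _ _).differentiableAt
      rw [mem_ball, dist_eq_norm, ← map_sub, Complex.norm_conj, ← dist_eq_norm]
      exact hw
    exact h2.analyticAt (ball_mem_nhds z hε)
  have h2 := h1.harmonicAt_re
  refine (harmonicAt_congr_nhds ?_).1 h2
  filter_upwards [ball_mem_nhds z hε] with w hw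
  have h3 : conj w ∈ ball (conj z) ε := by
    rw [mem_ball, dist_eq_norm, ← map_sub, Complex.norm_conj, ← dist_eq_norm]
    exact hw
  have h4 := hre h3
  simp only [Function.comp_apply, conj_re]
  exact h4

theorem conj_mem_ball {z : ℂ} (hz : z ∈ ball (0 : ℂ) r) : conj z ∈ ball (0 : ℂ) r := by
  rw [mem_ball_zero_iff] at hz ⊢
  rwa [Complex.norm_conj]

/-- **Local removability.** -/
theorem local_ext (hr : 0 < r) (hT : IsClosed T) (hnull : μH[1 / 2] (T ∩ Ioo (-r) r) = 0)
    (hf : ∀ z ∈ ball (0 : ℂ) r, (z.im ≠ 0 ∨ z.re ∉ T) → DifferentiableAt ℂ f z)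
    (hu : ∀ z ∈ ball (0 : ℂ) r, (z.im ≠ 0 ∨ z.re ∉ T) → HarmonicAt u z)
    (h0 : ∀ z ∈ ball (0 : ℂ) r, (z.im ≠ 0 ∨ z.re ∉ T) → 0 ≤ u z)
    (hb : ∀ z ∈ ball (0 : ℂ) r, (z.im ≠ 0 ∨ z.re ∉ T) → ‖f z‖ ^ 2 ≤ u z) :
    ∃ F : ℂ → ℂ, DifferentiableOn ℂ F (ball 0 (r / 4)) ∧
      ∀ z ∈ ball (0 : ℂ) (r / 4), (z.im ≠ 0 ∨ z.re ∉ T) → F z = f z := by
  obtain ⟨C₁, h1⟩ := up_of_majorant (f := f) (u := u) hr
    (fun z hz h => hf z hz (Or.inl h.ne')) (fun z hz h => hu z hz (Or.inl h.ne'))
    (fun z hz h => h0 z hz (Or.inl h.ne')) (fun z hz h => hb z hz (Or.inl h.ne'))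
  have him : ∀ z : ℂ, 0 < z.im → (conj z).im ≠ 0 := fun z h => by
    rw [conj_im]; exact neg_ne_zero.2 h.ne'
  obtain ⟨C₂, h2⟩ := up_of_majorant (f := cf f) (u := fun w => u (conj w)) hr
    (fun z hz h => by
      have h3 : cf f = conj ∘ f ∘ conj := rfl
      rw [h3, differentiableAt_conj_conj_iff]
      exact hf _ (conj_mem_ball hz) (Or.inl (him z h)))
    (fun z hz h => harmonicAt_conj (hu _ (conj_mem_ball hz) (Or.inl (him z h))))
    (fun z hz h => h0 _ (conj_mem_ball hz) (Or.inl (him z h)))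
    (fun z hz h => by
      simp only [cf, Complex.norm_conj]
      exact hb _ (conj_mem_ball hz) (Or.inl (him z h)))
  have h3 : Two f (r / 4) (max C₁ C₂) T := by
    refine ⟨h1.mono (le_max_left _ _), h2.mono (le_max_right _ _), ?_, ?_, hT⟩
    · intro x hx hxT
      apply hf
      · rw [mem_ball_zero_iff, norm_real, Real.norm_eq_abs]
        linarith
      · right
        simpa using hxT
    · refine measure_mono_null ?_ hnull
      rintro x ⟨hx, hx2⟩
      exact ⟨hx, by linarith [hx2.1], by linarith [hx2.2]⟩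
  exact h3.removable

end Q73.Hardy
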