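import Pool.Agent.Q73.Hd.Lin2
import Pool.Agent.Q73.Hd.Loc

/-!
# The domain
-/

set_option autoImplicit false

open Complex Set Filter Topology Metric InnerProductSpace MeasureTheory Measure
open scoped ComplexConjugate NNReal

namespace Q73.Hardy

/-- the positive function -/
noncomputable def v (w : ℂ) : ℝ := g (L w) + g (L (-w))

theorem v_nonneg (w : ℂ) : 0 ≤ v w := add_nonneg (g_nonneg _) (g_nonneg _)

theorem v_scale (w : ℂ) : v (10 * w) = 2 * v w := by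
  unfold v
  rw [L_eq, g_q, ← mul_neg, L_eq, g_q]
  ring

theorem v_iter (w : ℂ) (n : ℕ) : v (10 ^ n * w) = 2 ^ n * v w := by
  induction n with
  | zero => simp
  | succ n ih =>
    have : (10 : ℂ) ^ (n + 1) * w = 10 * (10 ^ n * w) := by ring
    rw [this, v_scale, ih]
    ring

theorem gL_pos {w : ℂ} (hw : L w ∉ K) : ∃ c > 0, ∀ᶠ y in 𝓝 w, c ≤ g (L y) := by
  have h1 : ContinuousAt (fun y => g (L y)) w :=
    (g_harm hw).1.continuousAt.comp L_diff.continuous.continuousAt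
  have h2 := g_pos hw
  refine ⟨g (L w) / 2, by linarith, ?_⟩
  have h3 := h1.eventually (lt_mem_nhds (show g (L w) / 2 < g (L w) by linarith))
  filter_upwards [h3] with y hy
  exact hy.le

theorem v_pos_nhds {w : ℂ} (hw : w ≠ 0) : ∃ c > 0, ∀ᶠ y in 𝓝 w, c ≤ v y := by
  by_cases h : L w ∈ K
  · have h1 : L (-w) ∉ K := by
      intro h2
      apply hw
      have a1 := E_im h
      have a2 := E_re h
      have a3 := E_re h2
      rw [neg_re] at a3
      apply Complex.ext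
      · rw [zero_re]; linarith
      · rw [zero_im]; exact a1
    obtain ⟨c, hc, h2⟩ := gL_pos h1
    refine ⟨c, hc, ?_⟩
    have h3 : ∀ᶠ y in 𝓝 w, c ≤ g (L (-y)) := (continuous_neg.tendsto w).eventually h2
    filter_upwards [h3] with y hy
    unfold v
    linarith [g_nonneg (L y)]
  · obtain ⟨c, hc, h2⟩ := gL_pos h
    refine ⟨c, hc, ?_⟩
    filter_upwards [h2] with y hy
    unfold v
    linarith [g_nonneg (L (-y))]

theorem v_lower : ∃ c > 0, ∀ w : ℂ, 1 ≤ ‖w‖ → ‖w‖ ≤ 10 → c ≤ v w := by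
  have hcomp : IsCompact (closedBall (0 : ℂ) 10 \ ball 0 1) :=
    (isCompact_closedBall 0 10).diff isOpen_ball
  have key : ∃ c > 0, ∀ w ∈ closedBall (0 : ℂ) 10 \ ball 0 1, c ≤ v w := by
    refine hcomp.induction_on (p := fun s => ∃ c > 0, ∀ w ∈ s, c ≤ v w) ?_ ?_ ?_ ?_
    · exact ⟨1, one_pos, fun w hw => absurd hw (notMem_empty w)⟩
    · rintro s t hst ⟨c, hc, h⟩
      exact ⟨c, hc, fun w hw => h w (hst hw)⟩
    · rintro s t ⟨c, hc, h⟩ ⟨c', hc', h'⟩
      refine ⟨min c c', lt_min hc hc', fun w hw => ?_⟩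
      rcases hw with hw | hw
      · exact (min_le_left _ _).trans (h w hw)
      · exact (min_le_right _ _).trans (h' w hw)
    · rintro w ⟨-, hw⟩
      have hw0 : w ≠ 0 := by
        rintro rfl
        exact hw (mem_ball_self one_pos)
      obtain ⟨c, hc, h⟩ := v_pos_nhds hw0
      exact ⟨_, mem_nhdsWithin_of_mem_nhds h, c, hc, fun y hy => hy⟩
  obtain ⟨c, hc, h⟩ := key
  refine ⟨c, hc, fun w h1 h2 => h w ⟨?_, ?_⟩⟩
  · rwa [mem_closedBall_zero_iff]
  · rw [mem_ball_zero_iff]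
    exact not_lt.2 h1

/-- **the majorant of `|z|²`** -/
theorem majorant : ∃ C > 0, ∀ z : ℂ, ‖z‖ ^ 2 ≤ 1 + C * v (z ^ 7) := by
  obtain ⟨c, hc, h⟩ := v_lower
  refine ⟨2 / c, by positivity, fun z => ?_⟩
  by_cases h1 : ‖z‖ ≤ 1
  · have h2 := v_nonneg (z ^ 7)
    have h3 : 0 ≤ 2 / c * v (z ^ 7) := by positivity
    nlinarith [norm_nonneg z]
  · rw [not_le] at h1
    have h2 : 1 ≤ ‖z ^ 7‖ := by
      rw [norm_pow]
      exact one_le_pow₀ h1.le
    obtain ⟨n, hn1, hn2⟩ := exists_nat_pow_near h2 (show (1 : ℝ) < 10 by norm_num)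
    have h10 : (0 : ℝ) < 10 ^ n := by positivity
    have h3 : v (z ^ 7) = 2 ^ n * v (z ^ 7 / 10 ^ n) := by
      rw [← v_iter]
      congr 1
      field_simp
    have hnorm : ‖z ^ 7 / 10 ^ n‖ = ‖z ^ 7‖ / 10 ^ n := by
      rw [norm_div, norm_pow (10 : ℂ)]
      norm_num
    have h4 : c ≤ v (z ^ 7 / 10 ^ n) := by
      apply h
      · rw [hnorm, le_div_iff₀ h10]
        linarith
      · rw [hnorm, div_le_iff₀ h10]
        have e : (10 : ℝ) ^ (n + 1) = 10 * 10 ^ n := by ring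
        rw [e] at hn2
        exact hn2.le
    have h5 : ‖z‖ ^ 2 ≤ 2 ^ (n + 1) := by
      by_contra hcon
      rw [not_le] at hcon
      have h6 : ((2 : ℝ) ^ (n + 1)) ^ 7 < (‖z‖ ^ 2) ^ 7 :=
        pow_lt_pow_left₀ hcon (by positivity) (by norm_num)
      have h7 : (‖z‖ ^ 2) ^ 7 = (‖z ^ 7‖) ^ 2 := by
        rw [norm_pow]; ring
      have h8 : ‖z ^ 7‖ ^ 2 < ((10 : ℝ) ^ (n + 1)) ^ 2 :=
        pow_lt_pow_left₀ hn2 (norm_nonneg _) (by norm_num)
      have h9 : ((10 : ℝ) ^ (n + 1)) ^ 2 ≤ ((2 : ℝ) ^ (n + 1)) ^ 7 := by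
        rw [← pow_mul, ← pow_mul, mul_comm (n + 1) 2, mul_comm (n + 1) 7, pow_mul, pow_mul]
        exact pow_le_pow_left₀ (by norm_num) (by norm_num) _
      linarith
    calc ‖z‖ ^ 2 ≤ 2 ^ (n + 1) := h5
      _ = 2 / c * (2 ^ n * c) := by field_simp; ring
      _ ≤ 2 / c * (2 ^ n * v (z ^ 7 / 10 ^ n)) := by
          apply mul_le_mul_of_nonneg_left _ (by positivity)
          exact mul_le_mul_of_nonneg_left h4 (by positivity)
      _ = 2 / c * v (z ^ 7) := by rw [h3]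
      _ ≤ 1 + 2 / c * v (z ^ 7) := by linarith

/-- the trace of the exceptional set on the rays -/
def T : Set ℝ := {t | L (-(t : ℂ) ^ 7) ∈ K}

theorem T_closed : IsClosed T := by
  refine K_closed.preimage (L_diff.continuous.comp ?_)
  fun_prop

theorem real_of_T {t : ℝ} (ht : t ∈ T) :
    L (-(t : ℂ) ^ 7) = (((L (-(t : ℂ) ^ 7)).re : ℝ) : ℂ) := K_eq_re ht

theorem T_null {t₀ : ℝ} (h0 : 0 < t₀) : ∃ r > 0, μH[1 / 2] (T ∩ Ioo (t₀ - r) (t₀ + r)) = 0 := by
  by_cases hT : t₀ ∈ T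
  · have hs : HasStrictDerivAt (fun z : ℂ => L (-z ^ 7))
        (deriv (fun z : ℂ => L (-z ^ 7)) t₀) (t₀ : ℂ) := by
      have hd : Differentiable ℂ (fun z : ℂ => L (-z ^ 7)) :=
        L_diff.comp (by fun_prop)
      exact (hd.analyticAt (t₀ : ℂ)).hasStrictDerivAt
    have hne : deriv (fun z : ℂ => L (-z ^ 7)) t₀ ≠ 0 := by
      have h1 : HasDerivAt (fun z : ℂ => -z ^ 7) (-(7 * (t₀ : ℂ) ^ 6)) t₀ := by
        have h := (hasDerivAt_pow 7 (t₀ : ℂ)).fun_neg
        simpa using h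
      have h2 := (L_diff (-(t₀ : ℂ) ^ 7)).hasDerivAt.comp (t₀ : ℂ) h1
      have h3 : deriv (fun z : ℂ => L (-z ^ 7)) t₀ =
          deriv L (-(t₀ : ℂ) ^ 7) * (-(7 * (t₀ : ℂ) ^ 6)) := h2.deriv
      rw [h3]
      refine mul_ne_zero (L'_ne hT) ?_
      have : (t₀ : ℂ) ≠ 0 := ofReal_ne_zero.2 h0.ne'
      exact neg_ne_zero.2 (mul_ne_zero (by norm_num) (pow_ne_zero _ this))
    obtain ⟨r, hr, hexp⟩ := expand hs hne
    set c := ‖deriv (fun z : ℂ => L (-z ^ 7)) t₀‖ / 2 with hc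
    have hc0 : 0 < c := by rw [hc]; have := norm_pos_iff.2 hne; linarith
    refine ⟨r, hr, ?_⟩
    set S := T ∩ Ioo (t₀ - r) (t₀ + r) with hS
    set φ : ℝ → ℝ := fun t => (L (-(t : ℂ) ^ 7)).re with hφ
    have hmem : ∀ t ∈ S, (t : ℂ) ∈ ball (t₀ : ℂ) r := by
      rintro t ⟨-, ht⟩
      rw [mem_ball, dist_eq_norm, ← ofReal_sub, norm_real, Real.norm_eq_abs, abs_lt]
      exact ⟨by linarith [ht.1], by linarith [ht.2]⟩
    have hdist : ∀ x ∈ S, ∀ y ∈ S, c * |x - y| ≤ |φ x - φ y| := by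
      intro x hx y hy
      have h1 := hexp x (hmem x hx) y (hmem y hy)
      rw [real_of_T hx.1, real_of_T hy.1, ← ofReal_sub, ← ofReal_sub, norm_real, norm_real,
        Real.norm_eq_abs, Real.norm_eq_abs] at h1
      exact h1
    have hinj : InjOn φ S := by
      intro x hx y hy hxy
      have h1 := hdist x hx y hy
      rw [hxy, sub_self, abs_zero] at h1
      have h2 : |x - y| = 0 := by
        have := abs_nonneg (x - y)
        nlinarith
      exact sub_eq_zero.1 (abs_eq_zero.1 h2)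
    have himg : φ '' S ⊆ KR := by
      rintro _ ⟨t, ht, rfl⟩
      have h1 := ht.1
      simp only [KR, mem_ofPred_eq, hφ]
      rw [← real_of_T ht.1]
      exact h1
    have hlip : LipschitzOnWith (1 / c).toNNReal (Function.invFunOn φ S) (φ '' S) := by
      apply LipschitzOnWith.of_dist_le_mul
      rintro _ ⟨x, hx, rfl⟩ _ ⟨y, hy, rfl⟩
      rw [hinj.leftInvOn_invFunOn hx, hinj.leftInvOn_invFunOn hy, Real.dist_eq, Real.dist_eq,
        Real.coe_toNNReal _ (by positivity)]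
      have := hdist x hx y hy
      rw [one_div, ← div_eq_inv_mul, le_div_iff₀ hc0]
      linarith
    have h1 := hlip.hausdorffMeasure_image_le (d := 1 / 2) (by norm_num)
    have h2 : μH[1 / 2] (φ '' S) = 0 := measure_mono_null himg KR_null
    rw [h2, mul_zero] at h1
    refine measure_mono_null ?_ (le_antisymm h1 bot_le)
    intro t ht
    exact ⟨φ t, ⟨t, ht, rfl⟩, hinj.leftInvOn_invFunOn ht⟩
  · obtain ⟨r, hr, hsub⟩ := Metric.isOpen_iff.1 T_closed.isOpen_compl t₀ hT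
    refine ⟨r, hr, ?_⟩
    have : T ∩ Ioo (t₀ - r) (t₀ + r) = ∅ := by
      rw [eq_empty_iff_forall_notMem]
      rintro t ⟨ht, ht2⟩
      refine hsub ?_ ht
      rw [mem_ball, Real.dist_eq, abs_lt]
      exact ⟨by linarith [ht2.1], by linarith [ht2.2]⟩
    rw [this, measure_empty]

theorem exists_radius : ∃ r₀ : ℝ, 0 < r₀ ∧ r₀ ∉ T := by
  obtain ⟨r, hr, h⟩ := T_null (show (0 : ℝ) < 1 by norm_num)
  by_contra hcon
  push Not at hcon
  have h1 : Ioo (1 : ℝ) (1 + r) ⊆ T ∩ Ioo (1 - r) (1 + r) := fun t ht =>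
    ⟨hcon t (by linarith [ht.1]), by linarith [ht.1], ht.2⟩
  have h2 : μH[1 / 2] (Ioo (1 : ℝ) (1 + r)) = 0 := measure_mono_null h1 h
  have h3 : μH[1] (Ioo (1 : ℝ) (1 + r)) = 0 :=
    le_antisymm ((hausdorffMeasure_mono (by norm_num) _).trans h2.le) bot_le
  rw [hausdorffMeasure_real, Real.volume_Ioo, ENNReal.ofReal_eq_zero] at h3
  linarith

/-- the domain -/
def D : Set ℂ := {z | L (z ^ 7) ∉ K ∧ L (-z ^ 7) ∉ K}

theorem D_open : IsOpen D := by
  have h1 : IsOpen {z : ℂ | L (z ^ 7) ∉ K} :=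
    K_closed.isOpen_compl.preimage (L_diff.continuous.comp (by fun_prop))
  have h2 : IsOpen {z : ℂ | L (-z ^ 7) ∉ K} :=
    K_closed.isOpen_compl.preimage (L_diff.continuous.comp (by fun_prop))
  exact h1.inter h2

theorem mem_D_of_im {z : ℂ} (h : (z ^ 7).im ≠ 0) : z ∈ D := by
  refine ⟨fun h1 => h (E_im h1), fun h1 => h ?_⟩
  have := E_im h1
  rwa [neg_im, neg_eq_zero] at this

theorem zero_not_mem_D : (0 : ℂ) ∉ D := by
  intro h
  apply h.1
  rw [zero_pow (by norm_num), L_zero]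
  have h1 : q 5 = 5 := by unfold q; norm_num
  intro n
  rw [Function.iterate_fixed h1]
  norm_num

theorem u_harm {z : ℂ} (hz : z ∈ D) : HarmonicAt (fun z => v (z ^ 7)) z := by
  have h1 : HarmonicAt (fun z : ℂ => g (L (z ^ 7))) z := by
    refine harmonicAt_comp (φ := fun z : ℂ => L (z ^ 7)) (g_harm hz.1) ?_
    exact (L_diff.comp (by fun_prop : Differentiable ℂ fun z : ℂ => z ^ 7)).analyticAt z
  have h2 : HarmonicAt (fun z : ℂ => g (L (-z ^ 7))) z := by
    refine harmonicAt_comp (φ := fun z : ℂ => L (-z ^ 7)) (g_harm hz.2) ?_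
    exact (L_diff.comp (by fun_prop : Differentiable ℂ fun z : ℂ => -z ^ 7)).analyticAt z
  exact h1.add h2

end Q73.Hardy
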