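import Pool.Agent.Q73.Hd.Conn

/-!
# Functions with a harmonic majorant extend holomorphically
-/

set_option autoImplicit false

open Complex Set Filter Topology Metric InnerProductSpace MeasureTheory Measure
open scoped ComplexConjugate NNReal

namespace Q73.Hardy

theorem dense_D {z : ℂ} (hz0 : z ≠ 0) : z ∈ closure D := by
  by_cases him : (z ^ 7).im = 0
  · have hre : (z ^ 7).re ≠ 0 := by
      intro h
      exact pow_ne_zero 7 hz0 (Complex.ext h him)
    have htend : Tendsto (fun t : ℝ => z * exp ((t : ℂ) * I)) (𝓝[>] 0) (𝓝 z) := by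
      have : Tendsto (fun t : ℝ => z * exp ((t : ℂ) * I)) (𝓝 0)
          (𝓝 (z * exp (((0 : ℝ) : ℂ) * I))) := Continuous.tendsto (by fun_prop) 0
      simp only [ofReal_zero, zero_mul, Complex.exp_zero, mul_one] at this
      exact this.mono_left nhdsWithin_le_nhds
    refine mem_closure_of_tendsto htend ?_
    have hpi := Real.pi_pos
    have hIoo : Ioo (0 : ℝ) (Real.pi / 7) ∈ 𝓝[>] (0 : ℝ) :=
      Ioo_mem_nhdsGT (by positivity)
    filter_upwards [hIoo] with t ht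
    apply mem_D_of_im
    rw [mul_pow, ← Complex.exp_nat_mul]
    have e : ((7 : ℕ) : ℂ) * ((t : ℂ) * I) = ((7 * t : ℝ) : ℂ) * I := by push_cast; ring
    rw [e, Complex.mul_im, him, zero_mul, add_zero, Complex.exp_ofReal_mul_I_im]
    refine mul_ne_zero hre (sin_ne (j := 0) ?_ ?_)
    · simp only [Int.cast_zero, mul_zero]
      linarith [ht.1]
    · simp only [Int.cast_zero, zero_add, mul_one]
      linarith [ht.2]
  · exact subset_closure (mem_D_of_im him)

theorem ext_at {f : ℂ → ℂ} {u : ℂ → ℝ} (hf : DifferentiableOn ℂ f D) (hu : Pos D u)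
    (hb : ∀ z ∈ D, ‖f z‖ ^ 2 ≤ u z) {z₁ : ℂ} (hz₁ : z₁ ≠ 0) :
    ∃ r > 0, ∃ F : ℂ → ℂ, DifferentiableOn ℂ F (ball z₁ r) ∧
      ∀ z ∈ ball z₁ r, z ∈ D → F z = f z := by
  by_cases hD : z₁ ∈ D
  · obtain ⟨r, hr, hsub⟩ := Metric.isOpen_iff.1 D_open z₁ hD
    exact ⟨r, hr, f, hf.mono hsub, fun _ _ _ => rfl⟩
  have him : (z₁ ^ 7).im = 0 := by
    by_contra h
    exact hD (mem_D_of_im h)
  set t₁ : ℝ := ‖z₁‖ with ht₁
  have ht0 : 0 < t₁ := norm_pos_iff.2 hz₁
  have htc : (t₁ : ℂ) ≠ 0 := ofReal_ne_zero.2 ht0.ne'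
  set ω : ℂ := z₁ / t₁ with hω
  have hω1 : ‖ω‖ = 1 := by
    rw [hω, norm_div, norm_real, Real.norm_eq_abs, abs_of_pos ht0, ← ht₁, div_self ht0.ne']
  have hω0 : ω ≠ 0 := by
    intro h
    rw [h, norm_zero] at hω1
    norm_num at hω1
  have hz1ω : z₁ = ω * t₁ := by
    rw [hω]; field_simp
  have hω7 : ω ^ 7 = 1 ∨ ω ^ 7 = -1 := by
    have h1 : z₁ ^ 7 = (((z₁ ^ 7).re : ℝ) : ℂ) := Complex.ext (by simp) (by simp [him])
    have h2 : |(z₁ ^ 7).re| = t₁ ^ 7 := by
      rw [ht₁, ← norm_pow, ← Real.norm_eq_abs, ← Complex.norm_real, ← h1]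
    have h3 : ω ^ 7 = z₁ ^ 7 / (t₁ : ℂ) ^ 7 := by rw [hω, div_pow]
    have h4 : (t₁ : ℂ) ^ 7 ≠ 0 := pow_ne_zero _ htc
    rcases abs_eq (by positivity : (0 : ℝ) ≤ t₁ ^ 7) |>.1 h2 with h5 | h5
    · left
      rw [h3, h1, h5]
      push_cast
      exact div_self h4
    · right
      rw [h3, h1, h5]
      push_cast
      rw [neg_div, div_self h4]
  have hs : HasStrictDerivAt (fun z : ℂ => z ^ 7) (deriv (fun z : ℂ => z ^ 7) (t₁ : ℂ)) t₁ :=
    ((differentiable_id.pow 7 : Differentiable ℂ fun z : ℂ => z ^ 7).analyticAt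
      (t₁ : ℂ)).hasStrictDerivAt
  have hne : deriv (fun z : ℂ => z ^ 7) (t₁ : ℂ) ≠ 0 := by
    rw [(hasDerivAt_pow 7 (t₁ : ℂ)).deriv]
    exact mul_ne_zero (by norm_num) (pow_ne_zero _ htc)
  obtain ⟨r₁, hr₁, hexp⟩ := expand hs hne
  obtain ⟨r₂, hr₂, hnull⟩ := T_null ht0
  set r := min (min r₁ r₂) t₁ with hr
  have hr0 : 0 < r := lt_min (lt_min hr₁ hr₂) ht0
  have hrr1 : r ≤ r₁ := (min_le_left _ _).trans (min_le_left _ _)
  have hrr2 : r ≤ r₂ := (min_le_left _ _).trans (min_le_right _ _)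
  have hrt : r ≤ t₁ := min_le_right _ _
  set T' : Set ℝ := {s | s + t₁ ∈ T} with hT'
  have hT'c : IsClosed T' := T_closed.preimage (by fun_prop)
  have hpm : ∀ x : ℂ, (ω * x) ^ 7 = x ^ 7 ∨ (ω * x) ^ 7 = -x ^ 7 := by
    intro x
    rw [mul_pow]
    rcases hω7 with h | h
    · left; rw [h, one_mul]
    · right; rw [h, neg_one_mul]
  have hmem : ∀ ζ ∈ ball (0 : ℂ) r, (ζ.im ≠ 0 ∨ ζ.re ∉ T') → ω * (t₁ + ζ) ∈ D := by
    intro ζ hζ h
    have hζn : ‖ζ‖ < r := by rwa [mem_ball_zero_iff] at hζ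
    set x : ℂ := t₁ + ζ with hx
    by_cases h0 : ζ.im = 0
    · have h1 : ζ.re ∉ T' := h.resolve_left (fun h => h h0)
      have hx2 : x = ((ζ.re + t₁ : ℝ) : ℂ) := by
        rw [hx]
        apply Complex.ext
        · simp only [add_re, ofReal_re]
          ring
        · simp [h0]
      have hpos : 0 < ζ.re + t₁ := by
        have := (abs_lt.1 ((abs_re_le_norm ζ).trans_lt hζn)).1
        linarith
      have h2 : L (x ^ 7) ∉ K := by
        have : x ^ 7 = (((ζ.re + t₁) ^ 7 : ℝ) : ℂ) := by rw [hx2]; push_cast; rfl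
        rw [this]
        exact E_real_pos (by positivity)
      have h3 : L (-x ^ 7) ∉ K := by
        rw [hx2]
        exact h1
      rcases hpm x with h4 | h4
      · refine ⟨?_, ?_⟩
        · rw [h4]; exact h2
        · rw [h4]; exact h3
      · refine ⟨?_, ?_⟩
        · rw [h4]; exact h3
        · rw [h4, neg_neg]; exact h2
    · have hxb : x ∈ ball (t₁ : ℂ) r₁ := by
        rw [mem_ball, dist_eq_norm, hx, add_sub_cancel_left]
        linarith
      have hxb' : conj x ∈ ball (t₁ : ℂ) r₁ := by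
        rw [mem_ball, dist_eq_norm] at hxb ⊢
        have : conj x - (t₁ : ℂ) = conj (x - t₁) := by rw [map_sub, Complex.conj_ofReal]
        rw [this, Complex.norm_conj]
        exact hxb
      have h1 : (x ^ 7).im ≠ 0 := by
        intro h2
        have h3 : (conj x) ^ 7 = x ^ 7 := by
          rw [← map_pow]
          exact Complex.conj_eq_iff_im.2 h2
        have h4 := hexp _ hxb _ hxb'
        rw [h3, sub_self, norm_zero] at h4
        have h5 := norm_pos_iff.2 hne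
        have h6 : ‖x - conj x‖ = 0 := by
          have := norm_nonneg (x - conj x)
          nlinarith
        rw [norm_eq_zero, sub_eq_zero, eq_comm, Complex.conj_eq_iff_im, hx, add_im, ofReal_im,
          zero_add] at h6
        exact h0 h6
      apply mem_D_of_im
      rcases hpm x with h4 | h4
      · rw [h4]; exact h1
      · rw [h4, neg_im]; exact neg_ne_zero.2 h1
  have hconv : ∀ ζ ∈ ball (0 : ℂ) r, ω * (t₁ + ζ) ∈ D → (ζ.im ≠ 0 ∨ ζ.re ∉ T') := by
    intro ζ hζ h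
    by_cases h0 : ζ.im = 0
    · right
      intro h1
      have hx2 : (t₁ : ℂ) + ζ = ((ζ.re + t₁ : ℝ) : ℂ) := by
        apply Complex.ext
        · simp only [add_re, ofReal_re]
          ring
        · simp [h0]
      have h3 : L (-((t₁ : ℂ) + ζ) ^ 7) ∈ K := by
        rw [hx2]
        exact h1
      rcases hpm ((t₁ : ℂ) + ζ) with h4 | h4
      · apply h.2; rw [h4]; exact h3
      · apply h.1; rw [h4]; exact h3
    · exact Or.inl h0
  have hnull' : μH[1 / 2] (T' ∩ Ioo (-r) r) = 0 := by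
    have hlip : LipschitzOnWith 1 (fun t : ℝ => t - t₁) (T ∩ Ioo (t₁ - r₂) (t₁ + r₂)) := by
      apply LipschitzOnWith.of_dist_le_mul
      intro x _ y _
      rw [Real.dist_eq, Real.dist_eq, sub_sub_sub_cancel_right]
      simp
    have h1 := hlip.hausdorffMeasure_image_le (d := 1 / 2) (by norm_num)
    rw [hnull, mul_zero] at h1
    refine measure_mono_null ?_ (le_antisymm h1 bot_le)
    rintro s ⟨hs, hs2⟩
    refine ⟨s + t₁, ⟨hs, by linarith [hs2.1], by linarith [hs2.2]⟩, ?_⟩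
    simp
  obtain ⟨F', hF', hFe⟩ := local_ext (f := fun ζ => f (ω * (t₁ + ζ)))
    (u := fun ζ => u (ω * (t₁ + ζ))) hr0 hT'c hnull'
    (fun ζ hζ h => by
      have h1 : DifferentiableAt ℂ f (ω * (t₁ + ζ)) :=
        hf.differentiableAt (D_open.mem_nhds (hmem ζ hζ h))
      have h2 : DifferentiableAt ℂ (fun ζ : ℂ => ω * (t₁ + ζ)) ζ := by fun_prop
      exact h1.comp ζ h2)
    (fun ζ hζ h => by
      have h2 : Differentiable ℂ (fun ζ : ℂ => ω * (t₁ + ζ)) := by fun_prop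
      exact harmonicAt_comp (φ := fun ζ : ℂ => ω * (t₁ + ζ)) (hu.1 _ (hmem ζ hζ h))
        (h2.analyticAt ζ))
    (fun ζ hζ h => hu.2 _ (hmem ζ hζ h))
    (fun ζ hζ h => hb _ (hmem ζ hζ h))
  have hnorm : ∀ z : ℂ, ‖ω⁻¹ * z - t₁‖ = ‖z - z₁‖ := by
    intro z
    have : ω⁻¹ * z - t₁ = ω⁻¹ * (z - z₁) := by
      rw [mul_sub, hz1ω, ← mul_assoc, inv_mul_cancel₀ hω0, one_mul]
    rw [this, norm_mul, norm_inv, hω1, inv_one, one_mul]
  refine ⟨r / 4, by linarith, fun z => F' (ω⁻¹ * z - t₁), ?_, ?_⟩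
  · refine hF'.comp (by fun_prop) ?_
    intro z hz
    rw [mem_ball_zero_iff, hnorm, ← dist_eq_norm]
    exact hz
  · intro z hz hzD
    have h1 : ω⁻¹ * z - t₁ ∈ ball (0 : ℂ) (r / 4) := by
      rw [mem_ball_zero_iff, hnorm, ← dist_eq_norm]
      exact hz
    have h2 : ω * (t₁ + (ω⁻¹ * z - t₁)) = z := by
      rw [add_sub_cancel, ← mul_assoc, mul_inv_cancel₀ hω0, one_mul]
    have h3 := hFe _ h1 (hconv _ (ball_subset_ball (by linarith) h1) (by rw [h2]; exact hzD))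
    simp only [h2] at h3
    exact h3

/-- the global extension -/
theorem exists_ext {f : ℂ → ℂ} {u : ℂ → ℝ} (hf : DifferentiableOn ℂ f D) (hu : Pos D u)
    (hb : ∀ z ∈ D, ‖f z‖ ^ 2 ≤ u z) : ∃ F : ℂ → ℂ, (∀ z : ℂ, z ≠ 0 → DifferentiableAt ℂ F z) ∧
      ∀ z ∈ D, F z = f z := by
  refine ⟨extendFrom D f, fun z hz => ?_, fun z hz => ?_⟩
  · obtain ⟨r, hr, F, hF, hFe⟩ := ext_at hf hu hb hz
    have h1 : DifferentiableAt ℂ F z := hF.differentiableAt (ball_mem_nhds z hr)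
    refine h1.congr_of_eventuallyEq ?_
    filter_upwards [ball_mem_nhds z hr, isOpen_ne.mem_nhds hz] with w hw hw0
    apply extendFrom_eq (dense_D hw0)
    have h2 : Tendsto F (𝓝[D] w) (𝓝 (F w)) :=
      (hF.differentiableAt (isOpen_ball.mem_nhds hw)).continuousAt.mono_left nhdsWithin_le_nhds
    refine h2.congr' ?_
    filter_upwards [self_mem_nhdsWithin, mem_nhdsWithin_of_mem_nhds (isOpen_ball.mem_nhds hw)]
      with y hy1 hy2
    exact hFe y hy2 hy1
  · apply extendFrom_eq (subset_closure hz)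
    exact (hf.differentiableAt (D_open.mem_nhds hz)).continuousAt.mono_left nhdsWithin_le_nhds

end Q73.Hardy
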