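import Pool.Agent.Q73.Hd.Jul
import Pool.Agent.Q73.Hd.Harn

/-!
# The Green function of the filled Julia set of `z² - 20`
-/

set_option autoImplicit false

open Complex Set Filter Topology Metric InnerProductSpace

namespace Q73.Hardy

theorem q_norm {z : ℂ} (hz : 6 < ‖z‖) : 2 * ‖z‖ ≤ ‖q z‖ := by
  have h1 : ‖z‖ ^ 2 ≤ ‖q z‖ + 20 := by
    rw [← norm_pow]
    calc ‖z ^ 2‖ = ‖(z ^ 2 - 20) + 20‖ := by rw [sub_add_cancel]
      _ ≤ ‖z ^ 2 - 20‖ + ‖(20 : ℂ)‖ := norm_add_le _ _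
      _ = ‖q z‖ + 20 := by rw [show ‖(20 : ℂ)‖ = 20 by norm_num]; rfl
  nlinarith

theorem q_norm' {z : ℂ} (hz : 6 < ‖z‖) : 6 < ‖q z‖ := by
  have := q_norm hz
  linarith

theorem iter_norm {z : ℂ} (hz : 6 < ‖z‖) (n : ℕ) : 6 < ‖q^[n] z‖ := by
  induction n with
  | zero => simpa using hz
  | succ n ih =>
    rw [Function.iterate_succ_apply']
    exact q_norm' ih

/-- the domain near infinity -/
def W : Set ℂ := {z | 6 < ‖z‖}

theorem W_open : IsOpen W := isOpen_lt continuous_const continuous_norm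

theorem W_q {z : ℂ} (hz : z ∈ W) : q z ∈ W := q_norm' hz

theorem W_iter {z : ℂ} (hz : z ∈ W) (n : ℕ) : q^[n] z ∈ W := iter_norm hz n

theorem W_ne {z : ℂ} (hz : z ∈ W) : z ≠ 0 := by
  rintro rfl
  simp only [W, mem_ofPred_eq, norm_zero] at hz
  linarith

noncomputable def ell (z : ℂ) : ℂ := log (1 + -(20 / z ^ 2))

theorem small {z : ℂ} (hz : z ∈ W) : ‖-(20 / z ^ 2)‖ ≤ 5 / 9 := by
  have h6 : 6 < ‖z‖ := hz
  rw [norm_neg, norm_div, norm_pow, show ‖(20 : ℂ)‖ = 20 by norm_num,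
    div_le_div_iff₀ (by nlinarith) (by norm_num)]
  nlinarith

theorem ell_bound {z : ℂ} (hz : z ∈ W) : ‖ell z‖ ≤ 1 := by
  have h1 := small hz
  have h2 := norm_log_one_add_le (z := -(20 / z ^ 2)) (by linarith)
  refine h2.trans ?_
  set t := ‖-(20 / z ^ 2)‖ with ht
  have h0 : 0 ≤ t := norm_nonneg _
  have h3 : (1 - t)⁻¹ ≤ 9 / 4 := by
    rw [inv_le_comm₀ (by linarith) (by norm_num)]
    norm_num
    linarith
  have h4 : 0 ≤ (1 - t)⁻¹ := inv_nonneg.2 (by linarith)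
  have h5 : t ^ 2 ≤ 25 / 81 := by nlinarith
  have h6 : t ^ 2 * (1 - t)⁻¹ ≤ 25 / 81 * (9 / 4) :=
    mul_le_mul h5 h3 h4 (by norm_num)
  linarith

theorem ell_diff : DifferentiableOn ℂ ell W := by
  intro z hz
  have h0 := W_ne hz
  have h1 : 1 + -(20 / z ^ 2) ∈ slitPlane :=
    mem_slitPlane_of_norm_lt_one (by have := small hz; linarith)
  apply DifferentiableAt.differentiableWithinAt
  unfold ell
  have h2 : DifferentiableAt ℂ (fun z : ℂ => 1 + -(20 / z ^ 2)) z := by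
    have : z ^ 2 ≠ 0 := pow_ne_zero 2 h0
    fun_prop (disch := assumption)
  exact h2.clog h1

theorem q_diff : Differentiable ℂ q := by unfold q; fun_prop

theorem iter_diff (n : ℕ) : Differentiable ℂ (q^[n]) := by
  induction n with
  | zero => simp
  | succ n ih =>
    rw [Function.iterate_succ']
    exact q_diff.comp ih

noncomputable def Phi (z : ℂ) : ℂ := ∑' k : ℕ, (1 / 2 : ℂ) ^ (k + 1) * ell (q^[k] z)

theorem term_bound {z : ℂ} (hz : z ∈ W) (k : ℕ) :
    ‖(1 / 2 : ℂ) ^ (k + 1) * ell (q^[k] z)‖ ≤ (1 / 2 : ℝ) ^ (k + 1) := by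
  rw [norm_mul, norm_pow]
  have h1 : ‖(1 / 2 : ℂ)‖ = 1 / 2 := by norm_num
  rw [h1]
  have h2 := ell_bound (W_iter hz k)
  have h3 : (0 : ℝ) ≤ (1 / 2) ^ (k + 1) := by positivity
  nlinarith

theorem geom_half : HasSum (fun k : ℕ => (1 / 2 : ℝ) ^ (k + 1)) 1 := by
  have h := (hasSum_geometric_of_lt_one (r := (1 / 2 : ℝ)) (by norm_num) (by norm_num)).mul_left
    (1 / 2)
  have e : (1 / 2 : ℝ) * (1 - 1 / 2)⁻¹ = 1 := by norm_num
  rw [e] at h
  refine h.congr_fun ?_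
  intro k
  rw [pow_succ]
  ring

theorem Phi_summable {z : ℂ} (hz : z ∈ W) :
    Summable fun k : ℕ => (1 / 2 : ℂ) ^ (k + 1) * ell (q^[k] z) :=
  Summable.of_norm_bounded geom_half.summable (term_bound hz)

theorem Phi_diff : DifferentiableOn ℂ Phi W := by
  refine differentiableOn_tsum_of_summable_norm geom_half.summable (fun k => ?_) W_open
    (fun k z hz => term_bound hz k)
  refine DifferentiableOn.const_mul ?_ _
  exact ell_diff.comp (iter_diff k).differentiableOn (fun z hz => W_iter hz k)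

theorem Phi_bound {z : ℂ} (hz : z ∈ W) : ‖Phi z‖ ≤ 1 :=
  tsum_of_norm_bounded geom_half (term_bound hz)

theorem Phi_q {z : ℂ} (hz : z ∈ W) : 2 * Phi z = ell z + Phi (q z) := by
  have h1 := (Phi_summable hz).tsum_eq_zero_add
  unfold Phi
  rw [h1]
  have h2 : ∀ k : ℕ, (1 / 2 : ℂ) ^ (k + 1 + 1) * ell (q^[k + 1] z) =
      (1 / 2) * ((1 / 2 : ℂ) ^ (k + 1) * ell (q^[k] (q z))) := by
    intro k
    rw [Function.iterate_succ_apply]
    ring
  simp only [h2]
  rw [tsum_mul_left]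
  simp only [zero_add, pow_one, Function.iterate_zero, id_eq]
  ring

noncomputable def Lam (z : ℂ) : ℝ := Real.log ‖z‖ + (Phi z).re

theorem Lam_q {z : ℂ} (hz : z ∈ W) : Lam (q z) = 2 * Lam z := by
  have h1 := congrArg Complex.re (Phi_q hz)
  have h0 := W_ne hz
  have h2 : q z = z ^ 2 * (1 + -(20 / z ^ 2)) := by
    unfold q
    field_simp
    ring
  have hn : ‖1 + -(20 / z ^ 2)‖ ≠ 0 := by
    have h3 : 1 + -(20 / z ^ 2) ∈ slitPlane :=
      mem_slitPlane_of_norm_lt_one (by have := small hz; linarith)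
    exact norm_ne_zero_iff.2 (slitPlane_ne_zero h3)
  have h3 : Real.log ‖q z‖ = 2 * Real.log ‖z‖ + (ell z).re := by
    rw [h2, norm_mul, norm_pow, Real.log_mul (pow_ne_zero _ (norm_ne_zero_iff.2 h0)) hn,
      Real.log_pow]
    unfold ell
    rw [Complex.log_re]
    norm_num
  rw [Complex.add_re, Complex.mul_re] at h1
  simp only [Complex.re_ofNat, Complex.im_ofNat, zero_mul, sub_zero] at h1
  unfold Lam
  rw [h3]
  linarith

theorem Lam_pos {z : ℂ} (hz : z ∈ W) : 0 < Lam z := by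
  have h1 : -1 ≤ (Phi z).re := by
    have := (abs_le.1 ((abs_re_le_norm (Phi z)).trans (Phi_bound hz))).1
    exact this
  have h2 : (6 : ℝ) < ‖z‖ := hz
  have h3 : 1 < Real.log ‖z‖ := by
    rw [Real.lt_log_iff_exp_lt (by linarith)]
    have := Real.exp_one_lt_d9
    linarith
  unfold Lam
  linarith

theorem Lam_harm {z : ℂ} (hz : z ∈ W) : HarmonicAt Lam z := by
  have h1 : HarmonicAt (fun z : ℂ => Real.log ‖z‖) z :=
    AnalyticAt.harmonicAt_log_norm (f := fun z => z) analyticAt_id (W_ne hz)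
  have h2 : HarmonicAt (fun z : ℂ => (Phi z).re) z :=
    (Phi_diff.analyticAt (W_open.mem_nhds hz)).harmonicAt_re
  exact h1.add h2

theorem Lam_iter {z : ℂ} (hz : z ∈ W) (n : ℕ) : Lam (q^[n] z) = 2 ^ n * Lam z := by
  induction n with
  | zero => simp
  | succ n ih =>
    rw [Function.iterate_succ_apply', Lam_q (W_iter hz n), ih]
    ring

open Classical in
/-- the Green function -/
noncomputable def g (z : ℂ) : ℝ :=
  if h : ∃ n : ℕ, q^[n] z ∈ W then (1 / 2) ^ (Nat.find h) * Lam (q^[Nat.find h] z) else 0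

theorem g_eq {z : ℂ} {n : ℕ} (hn : q^[n] z ∈ W) : g z = (1 / 2) ^ n * Lam (q^[n] z) := by
  classical
  have h : ∃ n : ℕ, q^[n] z ∈ W := ⟨n, hn⟩
  have h1 : g z = (1 / 2) ^ (Nat.find h) * Lam (q^[Nat.find h] z) := by
    unfold g
    rw [dif_pos h]
  obtain ⟨k, hk⟩ := Nat.exists_eq_add_of_le (Nat.find_min' h hn)
  rw [h1, hk, add_comm, Function.iterate_add_apply, Lam_iter (Nat.find_spec h), pow_add]
  have : ((1 / 2 : ℝ) ^ k) * 2 ^ k = 1 := by
    rw [← mul_pow]; norm_num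
  linear_combination (-(1 / 2 : ℝ) ^ (Nat.find h) * Lam (q^[Nat.find h] z)) * this

theorem not_mem_K {z : ℂ} : z ∉ K ↔ ∃ n : ℕ, q^[n] z ∈ W := by
  simp [K, W]

theorem g_of_mem {z : ℂ} (hz : z ∈ K) : g z = 0 := by
  unfold g
  rw [dif_neg]
  intro h
  exact not_mem_K.2 h hz

theorem g_pos {z : ℂ} (hz : z ∉ K) : 0 < g z := by
  obtain ⟨n, hn⟩ := not_mem_K.1 hz
  rw [g_eq hn]
  exact mul_pos (by positivity) (Lam_pos hn)

theorem g_nonneg (z : ℂ) : 0 ≤ g z := by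
  by_cases hz : z ∈ K
  · rw [g_of_mem hz]
  · exact (g_pos hz).le

theorem g_q (z : ℂ) : g (q z) = 2 * g z := by
  by_cases hz : z ∈ K
  · rw [g_of_mem hz, g_of_mem (q_mem hz), mul_zero]
  · obtain ⟨n, hn⟩ := not_mem_K.1 hz
    have h1 : q^[n] (q z) ∈ W := by
      rw [← Function.iterate_succ_apply, Function.iterate_succ_apply']
      exact W_q hn
    rw [g_eq h1, g_eq hn, ← Function.iterate_succ_apply, Function.iterate_succ_apply', Lam_q hn]
    ring

theorem g_harm {z : ℂ} (hz : z ∉ K) : HarmonicAt g z := by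
  obtain ⟨n, hn⟩ := not_mem_K.1 hz
  have h1 : HarmonicAt (fun w => Lam (q^[n] w)) z :=
    harmonicAt_comp (Lam_harm hn) ((iter_diff n).analyticAt z)
  have h2 := h1.const_smul (c := (1 / 2 : ℝ) ^ n)
  refine (harmonicAt_congr_nhds ?_).1 h2
  have h3 : ∀ᶠ w in 𝓝 z, q^[n] w ∈ W :=
    (iter_diff n).continuous.continuousAt (W_open.mem_nhds hn)
  filter_upwards [h3] with w hw
  rw [g_eq hw]
  rfl

end Q73.Hardy
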