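import Mathlib

/-!
# Functions on the punctured plane of moderate growth on a sequence of circles
-/

set_option autoImplicit false

open Complex Set Filter Topology Metric
open scoped Nat

namespace Q73.Hardy

/-- an entire function of polynomial growth on a sequence of circles is a polynomial -/
theorem entire_poly {G : ℂ → ℂ} (hG : Differentiable ℂ G) {ρ r₀ Q : ℝ} {N : ℕ} (hρ : 1 < ρ)
    (hr₀ : 0 < r₀) (h : ∀ n : ℕ, ∀ z : ℂ, ‖z‖ = ρ ^ n * r₀ → ‖G z‖ ≤ Q * (ρ ^ N) ^ n) :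
    ∃ c : ℕ → ℂ, ∀ z, G z = ∑ k ∈ Finset.range (N + 1), c k * z ^ k := by
  have hz : ∀ k, N < k → iteratedDeriv k G 0 = 0 := by
    intro k hk
    have h1 : ∀ n : ℕ, ‖iteratedDeriv k G 0‖ ≤ (k ! * Q / r₀ ^ k) * (ρ ^ N / ρ ^ k) ^ n := by
      intro n
      have hR : 0 < ρ ^ n * r₀ := by positivity
      have h2 := Complex.norm_iteratedDeriv_le_of_forall_mem_sphere_norm_le (f := G) (c := 0) k hR
        hG.diffContOnCl (fun z hz => h n z (by rwa [mem_sphere_zero_iff_norm] at hz))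
      refine h2.trans (le_of_eq ?_)
      have h3 : ρ ≠ 0 := by positivity
      rw [div_pow, mul_pow, ← pow_mul ρ k n, ← pow_mul ρ n k, mul_comm n k]
      field_simp
    have h2 : Tendsto (fun n : ℕ => (k ! * Q / r₀ ^ k) * (ρ ^ N / ρ ^ k) ^ n) atTop
        (𝓝 ((k ! * Q / r₀ ^ k) * 0)) := by
      refine (tendsto_pow_atTop_nhds_zero_of_lt_one (by positivity) ?_).const_mul _
      rw [div_lt_one (by positivity)]
      exact pow_lt_pow_right₀ hρ hk
    rw [mul_zero] at h2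
    have h3 := ge_of_tendsto' h2 h1
    exact norm_le_zero_iff.1 h3
  refine ⟨fun k => (k ! : ℂ)⁻¹ * iteratedDeriv k G 0, fun z => ?_⟩
  have h1 := Complex.hasSum_taylorSeries_of_entire hG 0 z
  have h2 : HasSum (fun k : ℕ => (k ! : ℂ)⁻¹ • (z - 0) ^ k • iteratedDeriv k G 0)
      (∑ k ∈ Finset.range (N + 1), (k ! : ℂ)⁻¹ • (z - 0) ^ k • iteratedDeriv k G 0) := by
    apply hasSum_sum_of_ne_finset_zero
    intro k hk
    rw [Finset.mem_range, not_lt] at hk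
    rw [hz k (by omega), smul_zero, smul_zero]
  rw [h1.unique h2]
  refine Finset.sum_congr rfl fun k _ => ?_
  simp only [smul_eq_mul, sub_zero]
  ring

theorem laurent {F : ℂ → ℂ} {ρ r₀ B M : ℝ} {m : ℕ} (hρ : 1 < ρ) (hr₀ : 0 < r₀)
    (hF : ∀ z : ℂ, z ≠ 0 → DifferentiableAt ℂ F z) (hM0 : 0 ≤ M) (hM : M ≤ ρ ^ (2 * m))
    (hB : 0 ≤ B)
    (hpos : ∀ n : ℕ, ∀ z : ℂ, ‖z‖ = ρ ^ n * r₀ → ‖F z‖ ^ 2 ≤ B * M ^ n)
    (hneg : ∀ n : ℕ, ∀ z : ℂ, ‖z‖ = r₀ / ρ ^ n → ‖F z‖ ^ 2 ≤ B * M ^ n) :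
    ∃ c : ℕ → ℂ, ∀ z : ℂ, z ≠ 0 → F z = ∑ k ∈ Finset.range (2 * m + 1), c k * (z ^ k / z ^ m) := by
  have hρ0 : 0 < ρ := by linarith
  set G : ℂ → ℂ := fun z => z ^ m * F z with hG
  set Q : ℝ := √((r₀ ^ m) ^ 2 * B) with hQ
  have hQ0 : 0 ≤ Q := Real.sqrt_nonneg _
  have hQ2 : Q ^ 2 = (r₀ ^ m) ^ 2 * B := Real.sq_sqrt (by positivity)
  have hGd : ∀ z : ℂ, z ≠ 0 → DifferentiableAt ℂ G z := fun z hz =>
    (differentiableAt_pow (x := z) m).mul (hF z hz)
  have hMn : ∀ n : ℕ, M ^ n ≤ (ρ ^ (2 * m)) ^ n := fun n => pow_le_pow_left₀ hM0 hM n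
  have hsmall : ∀ n : ℕ, ∀ z : ℂ, ‖z‖ = r₀ / ρ ^ n → ‖G z‖ ≤ Q := by
    intro n z hz
    have h1 := hneg n z hz
    have h2 : ‖G z‖ ^ 2 = (‖z‖ ^ m) ^ 2 * ‖F z‖ ^ 2 := by
      rw [hG]
      simp only
      rw [norm_mul, norm_pow, mul_pow]
    refine abs_le_of_sq_le_sq' ?_ hQ0 |>.2
    rw [h2, hQ2, hz]
    calc ((r₀ / ρ ^ n) ^ m) ^ 2 * ‖F z‖ ^ 2 ≤ ((r₀ / ρ ^ n) ^ m) ^ 2 * (B * M ^ n) :=
          mul_le_mul_of_nonneg_left h1 (by positivity)
      _ ≤ ((r₀ / ρ ^ n) ^ m) ^ 2 * (B * (ρ ^ (2 * m)) ^ n) :=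
          mul_le_mul_of_nonneg_left (mul_le_mul_of_nonneg_left (hMn n) hB) (by positivity)
      _ = (r₀ ^ m) ^ 2 * B := by
          have e : (ρ ^ (2 * m)) ^ n = ((ρ ^ n) ^ m) ^ 2 := by
            rw [← pow_mul, ← pow_mul, ← pow_mul]
            congr 1
            ring
          rw [e, div_pow]
          field_simp
  have hlarge : ∀ n : ℕ, ∀ z : ℂ, ‖z‖ = ρ ^ n * r₀ → ‖G z‖ ≤ Q * (ρ ^ (2 * m)) ^ n := by
    intro n z hz
    have h1 := hpos n z hz
    have h2 : ‖G z‖ ^ 2 = (‖z‖ ^ m) ^ 2 * ‖F z‖ ^ 2 := by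
      rw [hG]
      simp only
      rw [norm_mul, norm_pow, mul_pow]
    refine abs_le_of_sq_le_sq' ?_ (by positivity) |>.2
    rw [h2, mul_pow, hQ2, hz]
    calc ((ρ ^ n * r₀) ^ m) ^ 2 * ‖F z‖ ^ 2 ≤ ((ρ ^ n * r₀) ^ m) ^ 2 * (B * M ^ n) :=
          mul_le_mul_of_nonneg_left h1 (by positivity)
      _ ≤ ((ρ ^ n * r₀) ^ m) ^ 2 * (B * (ρ ^ (2 * m)) ^ n) :=
          mul_le_mul_of_nonneg_left (mul_le_mul_of_nonneg_left (hMn n) hB) (by positivity)
      _ = (r₀ ^ m) ^ 2 * B * ((ρ ^ (2 * m)) ^ n) ^ 2 := by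
          have e : (ρ ^ (2 * m)) ^ n = ((ρ ^ n) ^ m) ^ 2 := by
            rw [← pow_mul, ← pow_mul, ← pow_mul]
            congr 1
            ring
          rw [e, mul_pow]
          ring
  -- boundedness near the origin
  have hbdd : ∀ z : ℂ, z ≠ 0 → ‖z‖ < r₀ → ‖G z‖ ≤ Q := by
    intro z hz0 hz
    have hzp : 0 < ‖z‖ := norm_pos_iff.2 hz0
    obtain ⟨n, hn⟩ := pow_unbounded_of_one_lt (r₀ / ‖z‖) hρ
    have hn2 : r₀ / ρ ^ n < ‖z‖ := by
      rw [div_lt_iff₀ hzp] at hn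
      rw [div_lt_iff₀ (by positivity)]
      linarith
    set U : Set ℂ := ball 0 r₀ \ closedBall 0 (r₀ / ρ ^ n) with hU
    have hUo : IsOpen U := isOpen_ball.sdiff isClosed_closedBall
    have hcl : closure U ⊆ {w : ℂ | r₀ / ρ ^ n ≤ ‖w‖ ∧ ‖w‖ ≤ r₀} := by
      apply closure_minimal
      · rintro w ⟨h1, h2⟩
        rw [mem_ball_zero_iff] at h1
        rw [mem_closedBall_zero_iff, not_le] at h2
        exact ⟨h2.le, h1.le⟩
      · exact (isClosed_le continuous_const continuous_norm).inter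
          (isClosed_le continuous_norm continuous_const)
    have hd : DiffContOnCl ℂ G U := by
      apply DifferentiableOn.diffContOnCl
      intro w hw
      apply (hGd w _).differentiableWithinAt
      rintro rfl
      have := (hcl hw).1
      rw [norm_zero] at this
      have h3 : 0 < r₀ / ρ ^ n := by positivity
      linarith
    refine Complex.norm_le_of_forall_mem_frontier_norm_le (U := U)
      (isBounded_ball.subset sdiff_subset) hd ?_ (subset_closure ⟨?_, ?_⟩)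
    · intro w hw
      obtain ⟨h1, h2⟩ := hcl hw.1
      rw [frontier, hUo.interior_eq] at hw
      by_cases h3 : ‖w‖ < r₀
      · have h4 : ‖w‖ = r₀ / ρ ^ n := by
          by_contra h5
          apply hw.2
          refine ⟨by rwa [mem_ball_zero_iff], ?_⟩
          rw [mem_closedBall_zero_iff, not_le]
          exact lt_of_le_of_ne h1 (Ne.symm h5)
        exact hsmall n w h4
      · exact hsmall 0 w (by rw [pow_zero, div_one]; linarith)
    · rwa [mem_ball_zero_iff]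
    · rw [mem_closedBall_zero_iff, not_le]
      exact hn2
  have hrem : DifferentiableOn ℂ (Function.update G 0 (limUnder (𝓝[≠] 0) G)) (ball 0 r₀) := by
    apply Complex.differentiableOn_update_limUnder_of_bddAbove (ball_mem_nhds 0 hr₀)
    · rintro z ⟨-, hz⟩
      exact (hGd z hz).differentiableWithinAt
    · refine ⟨Q, ?_⟩
      rintro _ ⟨z, ⟨hz1, hz2⟩, rfl⟩
      exact hbdd z hz2 (by rwa [mem_ball_zero_iff] at hz1)
  set G' : ℂ → ℂ := Function.update G 0 (limUnder (𝓝[≠] 0) G) with hG'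
  have hGe : ∀ z : ℂ, z ≠ 0 → G' z = G z := fun z hz => by
    rw [hG', Function.update_of_ne hz]
  have hent : Differentiable ℂ G' := by
    intro z
    by_cases hz : z = 0
    · rw [hz]
      exact hrem.differentiableAt (ball_mem_nhds 0 hr₀)
    · refine (hGd z hz).congr_of_eventuallyEq ?_
      filter_upwards [isOpen_ne.mem_nhds hz] with w hw
      exact hGe w hw
  obtain ⟨c, hc⟩ := entire_poly hent (Q := Q) (N := 2 * m) hρ hr₀ (by
    intro n z hz
    have hz0 : z ≠ 0 := by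
      rintro rfl
      rw [norm_zero] at hz
      have : 0 < ρ ^ n * r₀ := by positivity
      linarith
    rw [hGe z hz0]
    exact hlarge n z hz)
  refine ⟨c, fun z hz => ?_⟩
  have h1 := hc z
  rw [hGe z hz] at h1
  have h2 : z ^ m ≠ 0 := pow_ne_zero _ hz
  have h3 : F z = (∑ k ∈ Finset.range (2 * m + 1), c k * z ^ k) / z ^ m := by
    rw [← h1, hG]
    simp only
    rw [mul_div_cancel_left₀ _ h2]
  rw [h3, Finset.sum_div]
  refine Finset.sum_congr rfl fun k _ => ?_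
  rw [mul_div_assoc]

end Q73.Hardy
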