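import Pool.Agent.Q73.Hd.Ext
import Pool.Agent.Q73.Hd.Laur

/-!
# The functions with a harmonic majorant are Laurent polynomials of bounded degree
-/

set_option autoImplicit false

open Complex Set Filter Topology Metric InnerProductSpace

namespace Q73.Hardy

/-- the ratio of the similarity -/
noncomputable def rho : ℝ := (10 : ℝ) ^ (1 / 7 : ℝ)

theorem rho_pow : rho ^ 7 = 10 := by
  unfold rho
  rw [← Real.rpow_natCast, ← Real.rpow_mul (by norm_num)]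
  norm_num

theorem rho_gt : 1 < rho := by
  unfold rho
  exact Real.one_lt_rpow (by norm_num) (by norm_num)

theorem rho_scale (z : ℂ) : ((rho : ℂ) * z) ^ 7 = 10 * z ^ 7 := by
  rw [mul_pow]
  have : (rho : ℂ) ^ 7 = 10 := by
    have h := congrArg (fun r : ℝ => (r : ℂ)) rho_pow
    push_cast at h
    exact h
  rw [this]

theorem L_mem_iff (w : ℂ) : L (10 * w) ∈ K ↔ L w ∈ K := ⟨L_mem, L_mem'⟩

theorem mem_scale (z : ℂ) : (rho : ℂ) * z ∈ D ↔ z ∈ D := by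
  unfold D
  simp only [mem_ofPred_eq, rho_scale]
  rw [L_mem_iff, show -(10 * z ^ 7) = 10 * (-z ^ 7) by ring, L_mem_iff]

theorem mem_scale_pow (z : ℂ) (n : ℕ) : (rho : ℂ) ^ n * z ∈ D ↔ z ∈ D := by
  induction n with
  | zero => simp
  | succ n ih =>
    rw [pow_succ, mul_comm ((rho : ℂ) ^ n), mul_assoc, mem_scale, ih]

theorem mem_scale_inv (z : ℂ) (n : ℕ) : ((rho : ℂ) ^ n)⁻¹ * z ∈ D ↔ z ∈ D := by
  have h0 : (rho : ℂ) ^ n ≠ 0 := pow_ne_zero _ (ofReal_ne_zero.2 (by linarith [rho_gt]))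
  rw [← mem_scale_pow (((rho : ℂ) ^ n)⁻¹ * z) n, ← mul_assoc, mul_inv_cancel₀ h0, one_mul]

theorem pos_scale {u : ℂ → ℝ} (hu : Pos D u) {c : ℂ} (hc : ∀ z, c * z ∈ D ↔ z ∈ D) :
    Pos D (fun z => u (c * z)) := by
  refine ⟨fun z hz => ?_, fun z hz => hu.2 _ ((hc z).2 hz)⟩
  have h2 : Differentiable ℂ (fun z : ℂ => c * z) := by fun_prop
  exact harmonicAt_comp (φ := fun z : ℂ => c * z) (hu.1 _ ((hc z).2 hz)) (h2.analyticAt z)

/-- growth of the positive harmonic functions -/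
theorem growth : ∃ r₀ : ℝ, 0 < r₀ ∧ ∃ M : ℝ, 1 ≤ M ∧ (r₀ : ℂ) ∈ D ∧
    (∀ n : ℕ, ∀ z : ℂ, ‖z‖ = rho ^ n * r₀ → z ∈ D) ∧
    (∀ n : ℕ, ∀ z : ℂ, ‖z‖ = r₀ / rho ^ n → z ∈ D) ∧
    ∀ u, Pos D u → (∀ n : ℕ, ∀ z : ℂ, ‖z‖ = rho ^ n * r₀ → u z ≤ u r₀ * M * M ^ n) ∧
      (∀ n : ℕ, ∀ z : ℂ, ‖z‖ = r₀ / rho ^ n → u z ≤ u r₀ * M * M ^ n) := by
  obtain ⟨r₀, h0, hT⟩ := exists_radius
  have hρ := rho_gt
  have hρ0 : (0 : ℝ) < rho := by linarith
  have hρc : (rho : ℂ) ≠ 0 := ofReal_ne_zero.2 hρ0.ne'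
  have hnρ : ‖(rho : ℂ)‖ = rho := by rw [norm_real, Real.norm_eq_abs, abs_of_pos hρ0]
  have hsph : ∀ z : ℂ, ‖z‖ = r₀ → z ∈ D := fun z hz =>
    sphere_sub h0 hT (by rwa [mem_sphere_zero_iff_norm])
  have hr₀n : ‖(r₀ : ℂ)‖ = r₀ := by rw [norm_real, Real.norm_eq_abs, abs_of_pos h0]
  have hposD : ∀ n : ℕ, ∀ z : ℂ, ‖z‖ = rho ^ n * r₀ → z ∈ D := by
    intro n z hz
    rw [← mem_scale_inv z n]
    apply hsph
    rw [norm_mul, norm_inv, norm_pow, hnρ, hz]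
    field_simp
  have hnegD : ∀ n : ℕ, ∀ z : ℂ, ‖z‖ = r₀ / rho ^ n → z ∈ D := by
    intro n z hz
    rw [← mem_scale_pow z n]
    apply hsph
    rw [norm_mul, norm_pow, hnρ, hz]
    field_simp
  set Γ : Set ℂ := sphere 0 r₀ ∪ sphere 0 (rho * r₀) with hΓ
  have hΓc : IsCompact Γ := (isCompact_sphere 0 r₀).union (isCompact_sphere 0 _)
  have hΓD : Γ ⊆ D := by
    rintro z (hz | hz)
    · exact hsph z (by rwa [mem_sphere_zero_iff_norm] at hz)
    · refine hposD 1 z ?_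
      rw [mem_sphere_zero_iff_norm] at hz
      rw [hz, pow_one]
  obtain ⟨M, hM1, hM⟩ := compact_harnack D_open D_conn hΓc hΓD
  refine ⟨r₀, h0, M, hM1, hsph _ hr₀n, hposD, hnegD, fun u hu => ⟨?_, ?_⟩⟩
  · intro n
    induction n with
    | zero =>
      intro z hz
      rw [pow_zero, one_mul] at hz
      rw [pow_zero, mul_one, mul_comm]
      exact hM u hu z (Or.inl (by rwa [mem_sphere_zero_iff_norm])) r₀
        (Or.inl (by rwa [mem_sphere_zero_iff_norm]))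
    | succ n ih =>
      intro z hz
      have hv := pos_scale hu (fun z => mem_scale_pow z n)
      have e0 : (rho : ℂ) ^ n ≠ 0 := pow_ne_zero _ hρc
      have h1 := hM _ hv (((rho : ℂ) ^ n)⁻¹ * z) (Or.inr (by
        rw [mem_sphere_zero_iff_norm, norm_mul, norm_inv, norm_pow, hnρ, hz, pow_succ]
        field_simp)) (((rho : ℂ) ^ (n + 1))⁻¹ * z) (Or.inl (by
        rw [mem_sphere_zero_iff_norm, norm_mul, norm_inv, norm_pow, hnρ, hz]
        field_simp))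
      have e1 : (rho : ℂ) ^ n * (((rho : ℂ) ^ n)⁻¹ * z) = z := by
        rw [← mul_assoc, mul_inv_cancel₀ e0, one_mul]
      have e2 : (rho : ℂ) ^ n * (((rho : ℂ) ^ (n + 1))⁻¹ * z) = (rho : ℂ)⁻¹ * z := by
        rw [pow_succ]
        field_simp
      rw [e1, e2] at h1
      have h2 := ih ((rho : ℂ)⁻¹ * z) (by
        rw [norm_mul, norm_inv, hnρ, hz, pow_succ]
        field_simp)
      calc u z ≤ M * u ((rho : ℂ)⁻¹ * z) := h1
        _ ≤ M * (u r₀ * M * M ^ n) := mul_le_mul_of_nonneg_left h2 (by linarith)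
        _ = u r₀ * M * M ^ (n + 1) := by ring
  · intro n
    induction n with
    | zero =>
      intro z hz
      rw [pow_zero, div_one] at hz
      rw [pow_zero, mul_one, mul_comm]
      exact hM u hu z (Or.inl (by rwa [mem_sphere_zero_iff_norm])) r₀
        (Or.inl (by rwa [mem_sphere_zero_iff_norm]))
    | succ n ih =>
      intro z hz
      have hv := pos_scale hu (fun z => mem_scale_inv z (n + 1))
      have e0 : (rho : ℂ) ^ (n + 1) ≠ 0 := pow_ne_zero _ hρc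
      have h1 := hM _ hv ((rho : ℂ) ^ (n + 1) * z) (Or.inl (by
        rw [mem_sphere_zero_iff_norm, norm_mul, norm_pow, hnρ, hz]
        field_simp)) ((rho : ℂ) ^ (n + 1) * ((rho : ℂ) * z)) (Or.inr (by
        rw [mem_sphere_zero_iff_norm, norm_mul, norm_mul, norm_pow, hnρ, hz]
        field_simp))
      have e1 : ((rho : ℂ) ^ (n + 1))⁻¹ * ((rho : ℂ) ^ (n + 1) * z) = z := by
        rw [← mul_assoc, inv_mul_cancel₀ e0, one_mul]
      have e2 : ((rho : ℂ) ^ (n + 1))⁻¹ * ((rho : ℂ) ^ (n + 1) * ((rho : ℂ) * z)) =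
          (rho : ℂ) * z := by
        rw [← mul_assoc, inv_mul_cancel₀ e0, one_mul]
      rw [e1, e2] at h1
      have h2 := ih ((rho : ℂ) * z) (by
        rw [norm_mul, hnρ, hz, pow_succ]
        field_simp)
      calc u z ≤ M * u ((rho : ℂ) * z) := h1
        _ ≤ M * (u r₀ * M * M ^ n) := mul_le_mul_of_nonneg_left h2 (by linarith)
        _ = u r₀ * M * M ^ (n + 1) := by ring

/-- **the structure theorem** -/
theorem structure_thm : ∃ m : ℕ, ∀ f : ℂ → ℂ, DifferentiableOn ℂ f D →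
    (∃ u : ℂ → ℝ, (∀ z ∈ D, HarmonicAt u z) ∧ ∀ z ∈ D, ‖f z‖ ^ 2 ≤ u z) →
    ∃ c : ℕ → ℂ, ∀ z ∈ D, f z = ∑ k ∈ Finset.range (2 * m + 1), c k * (z ^ k / z ^ m) := by
  obtain ⟨r₀, h0, M, hM1, hr₀D, hposD, hnegD, hgrow⟩ := growth
  have hρ := rho_gt
  obtain ⟨m, hm⟩ := pow_unbounded_of_one_lt M (show (1 : ℝ) < rho ^ 2 by nlinarith)
  refine ⟨m, fun f hf ⟨u, hu, hb⟩ => ?_⟩
  have hP : Pos D u := ⟨hu, fun z hz => (sq_nonneg _).trans (hb z hz)⟩
  obtain ⟨F, hF, hFe⟩ := exists_ext hf hP hb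
  obtain ⟨g1, g2⟩ := hgrow u hP
  obtain ⟨c, hc⟩ := laurent (F := F) (B := u r₀ * M) (M := M) (m := m) hρ h0 hF (by linarith)
    (by rw [pow_mul]; exact hm.le) (mul_nonneg (hP.2 _ hr₀D) (by linarith))
    (fun n z hz => by
      have hz' := hposD n z hz
      rw [hFe z hz']
      exact (hb z hz').trans (g1 n z hz))
    (fun n z hz => by
      have hz' := hnegD n z hz
      rw [hFe z hz']
      exact (hb z hz').trans (g2 n z hz))
  refine ⟨c, fun z hz => ?_⟩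
  have hz0 : z ≠ 0 := by
    rintro rfl
    exact zero_not_mem_D hz
  rw [← hFe z hz, hc z hz0]

end Q73.Hardy
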