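import Mathlib

/-!
# The filled Julia set of `z² - 20`
-/

set_option autoImplicit false

open Complex MeasureTheory Set Filter Topology Metric Measure
open scoped ENNReal NNReal

namespace Q73.Hardy

/-- the polynomial -/
noncomputable def q (z : ℂ) : ℂ := z ^ 2 - 20

/-- its filled Julia set -/
def K : Set ℂ := {z | ∀ n : ℕ, ‖q^[n] z‖ ≤ 6}

theorem q_cont : Continuous q := by unfold q; fun_prop

theorem K_closed : IsClosed K := by
  have : K = ⋂ n : ℕ, {z | ‖q^[n] z‖ ≤ 6} := by
    ext z; simp [K]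
  rw [this]
  exact isClosed_iInter fun n => isClosed_le ((q_cont.iterate n).norm) continuous_const

theorem q_mem {z : ℂ} (h : z ∈ K) : q z ∈ K := fun n => by
  rw [← Function.iterate_succ_apply]
  exact h (n + 1)

theorem mem_of_q {z : ℂ} (h : q z ∈ K) : z ∈ K := by
  intro n
  cases n with
  | zero =>
    have h0 := h 0
    simp only [Function.iterate_zero, id_eq, q] at h0 ⊢
    have h1 : ‖z‖ ^ 2 ≤ 26 := by
      rw [← norm_pow]
      calc ‖z ^ 2‖ = ‖(z ^ 2 - 20) + 20‖ := by rw [sub_add_cancel]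
        _ ≤ ‖z ^ 2 - 20‖ + ‖(20 : ℂ)‖ := norm_add_le _ _
        _ ≤ 26 := by
            rw [show ‖(20 : ℂ)‖ = 20 by norm_num]
            linarith
    nlinarith [norm_nonneg z]
  | succ n =>
    rw [Function.iterate_succ_apply]
    exact h n

theorem K_re {z : ℂ} (h : z ∈ K) : 7 / 2 ≤ |z.re| := by
  have h1 := q_mem h 0
  simp only [Function.iterate_zero, id_eq] at h1
  have h2 : -6 ≤ (q z).re := by
    have := (abs_le.1 ((abs_re_le_norm (q z)).trans h1)).1
    exact this
  have h3 : (q z).re = z.re ^ 2 - z.im ^ 2 - 20 := by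
    simp [q, sq]
  rw [h3] at h2
  have h4 : (7 / 2 : ℝ) ^ 2 ≤ |z.re| ^ 2 := by
    rw [sq_abs]
    nlinarith [sq_nonneg z.im]
  exact le_of_sq_le_sq h4 (abs_nonneg _)

theorem K_im {z : ℂ} (h : z ∈ K) : z.im = 0 := by
  have key : ∀ n : ℕ, ∀ z ∈ K, 7 ^ n * |z.im| ≤ 6 := by
    intro n
    induction n with
    | zero =>
      intro z hz
      rw [pow_zero, one_mul]
      exact (abs_im_le_norm z).trans (hz 0)
    | succ n ih =>
      intro z hz
      have h1 := ih (q z) (q_mem hz)
      have h2 : (q z).im = 2 * z.re * z.im := by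
        simp [q, sq]; ring
      rw [h2, abs_mul, abs_mul, abs_two] at h1
      have h3 := K_re hz
      have h4 : (0 : ℝ) < 7 ^ n := by positivity
      calc (7 : ℝ) ^ (n + 1) * |z.im| = 7 ^ n * (7 * |z.im|) := by ring
        _ ≤ 7 ^ n * (2 * |z.re| * |z.im|) := by
            apply mul_le_mul_of_nonneg_left _ h4.le
            apply mul_le_mul_of_nonneg_right _ (abs_nonneg _)
            linarith
        _ ≤ 6 := h1
  by_contra h0
  have h1 : 0 < |z.im| := abs_pos.2 h0
  obtain ⟨n, hn⟩ := pow_unbounded_of_one_lt (6 / |z.im|) (show (1 : ℝ) < 7 by norm_num)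
  have h2 := key n z h
  rw [div_lt_iff₀ h1] at hn
  linarith

theorem K_eq_re {z : ℂ} (h : z ∈ K) : z = (z.re : ℂ) :=
  Complex.ext (by simp) (by simp [K_im h])

/-- the real version -/
def KR : Set ℝ := {x : ℝ | (x : ℂ) ∈ K}

def qr (x : ℝ) : ℝ := x ^ 2 - 20

theorem qr_coe (x : ℝ) : ((qr x : ℝ) : ℂ) = q x := by
  simp [qr, q]

theorem qr_mem {x : ℝ} (h : x ∈ KR) : qr x ∈ KR := by
  simp only [KR, mem_ofPred_eq, qr_coe] at h ⊢
  exact q_mem h

theorem KR_closed : IsClosed KR := K_closed.preimage Complex.continuous_ofReal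

theorem KR_abs {x : ℝ} (h : x ∈ KR) : |x| ≤ 6 := by
  have := h 0
  simpa using this

theorem KR_ge {x : ℝ} (h : x ∈ KR) : 7 / 2 ≤ |x| := by
  have := K_re h
  simpa using this

/-- the cells of the level `n` -/
def cell (n : ℕ) (σ : Fin n → Bool) : Set ℝ :=
  {x ∈ KR | ∀ k : Fin n, 0 < qr^[k] x ↔ σ k = true}

theorem cell_dist (n : ℕ) : ∀ x ∈ KR, ∀ y ∈ KR, (∀ k < n, (0 < qr^[k] x ↔ 0 < qr^[k] y)) →
    |x - y| ≤ 12 * (1 / 7) ^ n := by
  induction n with
  | zero =>
    intro x hx y hy _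
    have h1 := KR_abs hx
    have h2 := KR_abs hy
    rw [pow_zero, mul_one]
    exact (abs_sub x y).trans (by linarith)
  | succ n ih =>
    intro x hx y hy h
    have h1 := ih (qr x) (qr_mem hx) (qr y) (qr_mem hy) (fun k hk => by
      have := h (k + 1) (by omega)
      rwa [Function.iterate_succ_apply, Function.iterate_succ_apply] at this)
    have h2 : qr x - qr y = (x - y) * (x + y) := by unfold qr; ring
    have h3 : 7 ≤ |x + y| := by
      have h4 := KR_ge hx
      have h5 := KR_ge hy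
      have h6 := h 0 (by omega)
      simp only [Function.iterate_zero, id_eq] at h6
      by_cases h7 : 0 < x
      · have h8 := h6.1 h7
        rw [abs_of_pos h7] at h4
        rw [abs_of_pos h8] at h5
        rw [abs_of_pos (by linarith)]
        linarith
      · have h8 : ¬ 0 < y := fun h => h7 (h6.2 h)
        rw [abs_of_nonpos (not_lt.1 h7)] at h4
        rw [abs_of_nonpos (not_lt.1 h8)] at h5
        rw [abs_of_nonpos (by linarith [not_lt.1 h7, not_lt.1 h8])]
        linarith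
    rw [h2, abs_mul] at h1
    have h9 : |x - y| * 7 ≤ 12 * (1 / 7) ^ n :=
      (mul_le_mul_of_nonneg_left h3 (abs_nonneg _)).trans h1
    rw [pow_succ]
    linarith

theorem cell_diam (n : ℕ) (σ : Fin n → Bool) :
    ediam (cell n σ) ≤ ENNReal.ofReal (12 * (1 / 7) ^ n) := by
  apply ediam_le
  rintro x ⟨hx, hx'⟩ y ⟨hy, hy'⟩
  rw [edist_dist, Real.dist_eq]
  apply ENNReal.ofReal_le_ofReal
  apply cell_dist n x hx y hy
  intro k hk
  rw [hx' ⟨k, hk⟩, hy' ⟨k, hk⟩]

theorem cell_cover (n : ℕ) : KR ⊆ ⋃ σ, cell n σ := by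
  intro x hx
  rw [mem_iUnion]
  refine ⟨fun k => decide (0 < qr^[k] x), hx, fun k => ?_⟩
  simp

/-- **the Julia set is small** -/
theorem KR_null : μH[1 / 2] KR = 0 := by
  have h := hausdorffMeasure_le_liminf_sum (ι := fun n : ℕ => Fin n → Bool) (1 / 2 : ℝ) KR
    (l := atTop) (fun n : ℕ => ENNReal.ofReal (12 * (1 / 7) ^ n)) (by
      have h1 : Tendsto (fun n : ℕ => (12 : ℝ) * (1 / 7) ^ n) atTop (𝓝 (12 * 0)) :=
        (tendsto_pow_atTop_nhds_zero_of_lt_one (by norm_num) (by norm_num)).const_mul 12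
      rw [mul_zero] at h1
      simpa using ENNReal.tendsto_ofReal h1)
    (fun n => cell n) (Filter.Eventually.of_forall fun n σ => cell_diam n σ)
    (Filter.Eventually.of_forall fun n => cell_cover n)
  refine le_antisymm (h.trans ?_) bot_le
  have h2 : Tendsto (fun n : ℕ => ENNReal.ofReal (√(12 * (4 / 7) ^ n))) atTop (𝓝 0) := by
    have h1 : Tendsto (fun n : ℕ => √((12 : ℝ) * (4 / 7) ^ n)) atTop (𝓝 (√(12 * 0))) :=
      ((tendsto_pow_atTop_nhds_zero_of_lt_one (by norm_num) (by norm_num)).const_mul 12).sqrt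
    rw [mul_zero, Real.sqrt_zero] at h1
    simpa using ENNReal.tendsto_ofReal h1
  rw [← h2.liminf_eq]
  refine Filter.liminf_le_liminf (Filter.Eventually.of_forall fun n => ?_)
  calc ∑ σ : Fin n → Bool, ediam (cell n σ) ^ (1 / 2 : ℝ)
      ≤ ∑ _σ : Fin n → Bool, ENNReal.ofReal (12 * (1 / 7) ^ n) ^ (1 / 2 : ℝ) :=
        Finset.sum_le_sum fun σ _ => ENNReal.rpow_le_rpow (cell_diam n σ) (by norm_num)
    _ = 2 ^ n * ENNReal.ofReal (√(12 * (1 / 7) ^ n)) := by
        rw [Finset.sum_const, ENNReal.ofReal_rpow_of_nonneg (by positivity) (by norm_num),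
          ← Real.sqrt_eq_rpow, nsmul_eq_mul]
        simp
    _ = ENNReal.ofReal (√(12 * (4 / 7) ^ n)) := by
        have e1 : ((2 : ℝ≥0∞) ^ n) = ENNReal.ofReal ((2 : ℝ) ^ n) := by
          rw [ENNReal.ofReal_pow (by norm_num)]
          simp
        rw [e1, ← ENNReal.ofReal_mul (by positivity)]
        congr 1
        have e2 : (2 : ℝ) ^ n = √((4 : ℝ) ^ n) := by
          rw [show (4 : ℝ) ^ n = (2 ^ n) ^ 2 by rw [← pow_mul, mul_comm, pow_mul]; norm_num]
          rw [Real.sqrt_sq (by positivity)]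
        rw [e2, ← Real.sqrt_mul (by positivity)]
        congr 1
        rw [div_pow, div_pow]
        ring

end Q73.Hardy
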