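import Pool.Agent.Q73.Hd.Green

/-!
# The Poincare function of `z² - 20` at the fixed point `5`
-/

set_option autoImplicit false

open Complex Set Filter Topology Metric InnerProductSpace
open scoped Nat ComplexConjugate

namespace Q73.Hardy

/-- the coefficients -/
noncomputable def co : ℕ → ℝ
  | 0 => 5
  | 1 => 1
  | (n + 2) => (∑ k : Fin (n + 1), co (k.1 + 1) * co (n + 1 - k.1)) / (10 ^ (n + 2) - 10)
decreasing_by all_goals omega

theorem co_zero : co 0 = 5 := by rw [co]

theorem co_one : co 1 = 1 := by rw [co]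

theorem co_succ (n : ℕ) : co (n + 2) =
    (∑ k ∈ Finset.range (n + 1), co (k + 1) * co (n + 1 - k)) / (10 ^ (n + 2) - 10) := by
  rw [co, Finset.sum_range]

theorem den_pos (n : ℕ) : (0 : ℝ) < 10 ^ (n + 2) - 10 := by
  have h1 : (1 : ℝ) ≤ 10 ^ n := one_le_pow₀ (by norm_num)
  have : (10 : ℝ) ^ (n + 2) = 10 ^ n * 100 := by rw [pow_add]; norm_num
  linarith

theorem co_bound (n : ℕ) : 0 ≤ co n ∧ (1 ≤ n → co n ≤ 1 / (n ! : ℝ)) := by
  induction n using Nat.strong_induction_on with
  | _ n ih =>
    match n with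
    | 0 => exact ⟨by rw [co_zero]; norm_num, fun h => absurd h (by norm_num)⟩
    | 1 => exact ⟨by rw [co_one]; norm_num, fun _ => by rw [co_one]; simp⟩
    | (n + 2) =>
      have hd := den_pos n
      rw [co_succ]
      refine ⟨div_nonneg (Finset.sum_nonneg fun k hk => ?_) hd.le, fun _ => ?_⟩
      · rw [Finset.mem_range] at hk
        exact mul_nonneg (ih _ (by omega)).1 (ih _ (by omega)).1
      · rw [div_le_iff₀ hd]
        have h1 : ∀ k ∈ Finset.range (n + 1), co (k + 1) * co (n + 1 - k) ≤
            ((n + 2).choose (k + 1) : ℝ) / ((n + 2) ! : ℝ) := by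
          intro k hk
          rw [Finset.mem_range] at hk
          have h2 := (ih (k + 1) (by omega)).2 (by omega)
          have h3 := (ih (n + 1 - k) (by omega)).2 (by omega)
          have h4 := (ih (n + 1 - k) (by omega)).1
          have h5 : ((n + 2).choose (k + 1) : ℝ) =
              ((n + 2) ! : ℝ) / (((k + 1) ! : ℝ) * ((n + 1 - k) ! : ℝ)) := by
            rw [Nat.cast_choose ℝ (by omega : k + 1 ≤ n + 2)]
            congr 4
            omega
          rw [h5]
          calc co (k + 1) * co (n + 1 - k) ≤ 1 / ((k + 1) ! : ℝ) * (1 / ((n + 1 - k) ! : ℝ)) :=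
                mul_le_mul h2 h3 h4 (by positivity)
            _ = _ := by
                have : ((n + 2) ! : ℝ) ≠ 0 := by positivity
                field_simp
        have h6 : ∑ k ∈ Finset.range (n + 1), ((n + 2).choose (k + 1) : ℝ) ≤ 2 ^ (n + 2) := by
          have h7 := Nat.sum_range_choose (n + 2)
          have h8 : ∑ k ∈ Finset.range (n + 1), (n + 2).choose (k + 1) ≤ 2 ^ (n + 2) := by
            rw [← h7, Finset.sum_range_succ' (fun m => (n + 2).choose m) (n + 2),
              Finset.sum_range_succ (fun k => (n + 2).choose (k + 1)) (n + 1)]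
            omega
          exact_mod_cast h8
        have h9 : (2 : ℝ) ^ (n + 2) ≤ 10 ^ (n + 2) - 10 := by
          have h10 : (2 : ℝ) ^ n ≤ 10 ^ n := pow_le_pow_left₀ (by norm_num) (by norm_num) n
          have h11 : (1 : ℝ) ≤ 10 ^ n := one_le_pow₀ (by norm_num)
          rw [pow_add, pow_add]
          linarith
        calc ∑ k ∈ Finset.range (n + 1), co (k + 1) * co (n + 1 - k)
            ≤ ∑ k ∈ Finset.range (n + 1), ((n + 2).choose (k + 1) : ℝ) / ((n + 2) ! : ℝ) :=
              Finset.sum_le_sum h1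
          _ = (∑ k ∈ Finset.range (n + 1), ((n + 2).choose (k + 1) : ℝ)) / ((n + 2) ! : ℝ) := by
              rw [Finset.sum_div]
          _ ≤ (10 ^ (n + 2) - 10) / ((n + 2) ! : ℝ) := by
              apply div_le_div_of_nonneg_right (h6.trans h9)
              positivity
          _ = 1 / ((n + 2) ! : ℝ) * (10 ^ (n + 2) - 10) := by ring

theorem co_nonneg (n : ℕ) : 0 ≤ co n := (co_bound n).1

theorem co_le (n : ℕ) : co n ≤ 5 / (n ! : ℝ) := by
  rcases Nat.eq_zero_or_pos n with rfl | h
  · rw [co_zero]; simp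
  · refine ((co_bound n).2 h).trans ?_
    apply div_le_div_of_nonneg_right (by norm_num)
    positivity

theorem co_rec (n : ℕ) : ∑ kl ∈ Finset.HasAntidiagonal.antidiagonal (n + 1), co kl.1 * co kl.2 =
    10 ^ (n + 1) * co (n + 1) := by
  rw [Finset.Nat.sum_antidiagonal_eq_sum_range_succ (fun i j => co i * co j)]
  cases n with
  | zero =>
    simp [Finset.sum_range_succ, co_zero, co_one]
    norm_num
  | succ n =>
    rw [Finset.sum_range_succ, Finset.sum_range_succ']
    have h1 : ∑ k ∈ Finset.range (n + 1), co (k + 1) * co (n + 1 + 1 - (k + 1)) =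
        (10 ^ (n + 2) - 10) * co (n + 2) := by
      rw [co_succ, mul_div_cancel₀ _ (den_pos n).ne']
      refine Finset.sum_congr rfl fun k hk => ?_
      congr 2
      omega
    rw [h1]
    simp only [Nat.sub_zero, Nat.sub_self, co_zero]
    ring

theorem term_norm (z : ℂ) (n : ℕ) : ‖(co n : ℂ) * z ^ n‖ ≤ 5 * (‖z‖ ^ n / (n ! : ℝ)) := by
  rw [norm_mul, norm_pow, norm_real, Real.norm_eq_abs, abs_of_nonneg (co_nonneg n)]
  calc co n * ‖z‖ ^ n ≤ 5 / (n ! : ℝ) * ‖z‖ ^ n :=
        mul_le_mul_of_nonneg_right (co_le n) (by positivity)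
    _ = _ := by ring

/-- the Poincare function -/
noncomputable def L (z : ℂ) : ℂ := ∑' n : ℕ, (co n : ℂ) * z ^ n

theorem sum_norm (z : ℂ) : Summable fun n : ℕ => ‖(co n : ℂ) * z ^ n‖ :=
  Summable.of_nonneg_of_le (fun _ => norm_nonneg _) (term_norm z)
    ((Real.summable_pow_div_factorial ‖z‖).mul_left 5)

theorem L_summable (z : ℂ) : Summable fun n : ℕ => (co n : ℂ) * z ^ n := (sum_norm z).of_norm

theorem L_diff : Differentiable ℂ L := by
  intro z
  have h1 : DifferentiableOn ℂ L (ball 0 (‖z‖ + 1)) := by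
    refine differentiableOn_tsum_of_summable_norm
      ((Real.summable_pow_div_factorial (‖z‖ + 1)).mul_left 5) (fun n => ?_) isOpen_ball ?_
    · fun_prop
    · intro n w hw
      refine (term_norm w n).trans ?_
      rw [mem_ball_zero_iff] at hw
      have : ‖w‖ ^ n ≤ (‖z‖ + 1) ^ n := pow_le_pow_left₀ (norm_nonneg _) hw.le n
      have h0 : (0 : ℝ) < (n ! : ℝ) := by positivity
      exact mul_le_mul_of_nonneg_left (div_le_div_of_nonneg_right this h0.le) (by norm_num)
  exact h1.differentiableAt (isOpen_ball.mem_nhds (by rw [mem_ball_zero_iff]; linarith))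

theorem L_zero : L 0 = 5 := by
  unfold L
  rw [tsum_eq_single 0]
  · simp [co_zero]
  · intro n hn
    rw [zero_pow hn, mul_zero]

/-- the functional equation -/
theorem L_eq (z : ℂ) : L (10 * z) = q (L z) := by
  have h1 : L z * L z = ∑' n : ℕ, ∑ kl ∈ Finset.HasAntidiagonal.antidiagonal n,
      ((co kl.1 : ℂ) * z ^ kl.1) * ((co kl.2 : ℂ) * z ^ kl.2) :=
    tsum_mul_tsum_eq_tsum_sum_antidiagonal_of_summable_norm (sum_norm z) (sum_norm z)
  have h2 : ∀ n : ℕ, ∑ kl ∈ Finset.HasAntidiagonal.antidiagonal n,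
      ((co kl.1 : ℂ) * z ^ kl.1) * ((co kl.2 : ℂ) * z ^ kl.2) =
      (co n : ℂ) * (10 * z) ^ n + if n = 0 then 20 else 0 := by
    intro n
    have h3 : ∑ kl ∈ Finset.HasAntidiagonal.antidiagonal n,
        ((co kl.1 : ℂ) * z ^ kl.1) * ((co kl.2 : ℂ) * z ^ kl.2) =
        ((∑ kl ∈ Finset.HasAntidiagonal.antidiagonal n, co kl.1 * co kl.2 : ℝ) : ℂ) * z ^ n := by
      rw [ofReal_sum, Finset.sum_mul]
      refine Finset.sum_congr rfl fun kl hkl => ?_
      rw [Finset.HasAntidiagonal.mem_antidiagonal] at hkl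
      rw [← hkl, pow_add]
      push_cast
      ring
    rw [h3]
    cases n with
    | zero =>
      simp [co_zero]
      norm_num
    | succ n =>
      rw [co_rec]
      simp only [Nat.add_eq_zero_iff, one_ne_zero, and_false, if_false, add_zero]
      push_cast
      ring
  simp only [h2] at h1
  have h4 : Summable fun n : ℕ => (if n = 0 then (20 : ℂ) else 0) :=
    summable_of_hasFiniteSupport ((Set.finite_singleton 0).subset fun n hn => by
      by_contra h
      simp only [mem_singleton_iff] at h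
      simp [h] at hn)
  rw [(L_summable (10 * z)).tsum_add h4, tsum_ite_eq] at h1
  unfold q
  rw [sq, h1]
  unfold L
  ring

theorem L_conj (z : ℂ) : L (conj z) = conj (L z) := by
  unfold L
  rw [Complex.conj_tsum]
  refine tsum_congr fun n => ?_
  rw [map_mul, map_pow, Complex.conj_ofReal]

theorem L_real (x : ℝ) : L x = (((L x).re : ℝ) : ℂ) := by
  have h := L_conj x
  rw [Complex.conj_ofReal] at h
  have h2 : (L x).im = 0 := Complex.conj_eq_iff_im.1 h.symm
  exact Complex.ext (by simp) (by simp [h2])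

theorem L_ge {x : ℝ} (hx : 0 ≤ x) : 5 + x ≤ (L x).re := by
  have h1 : Summable fun n : ℕ => co n * x ^ n := by
    have := sum_norm (x : ℂ)
    refine this.congr fun n => ?_
    rw [norm_mul, norm_pow, norm_real, norm_real, Real.norm_eq_abs, Real.norm_eq_abs,
      abs_of_nonneg (co_nonneg n), abs_of_nonneg hx]
  have h2 : L x = ((∑' n : ℕ, co n * x ^ n : ℝ) : ℂ) := by
    unfold L
    rw [ofReal_tsum]
    refine tsum_congr fun n => ?_
    push_cast
    rfl
  rw [h2, ofReal_re]
  have h3 := h1.sum_le_tsum (Finset.range 2) (fun n _ => mul_nonneg (co_nonneg n) (by positivity))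
  simpa [Finset.sum_range_succ, co_zero, co_one] using h3

end Q73.Hardy
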