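import Pool.Agent.Q73.Hd.Lin

/-!
# The preimage of the Julia set under the Poincare function
-/

set_option autoImplicit false

open Complex Set Filter Topology Metric InnerProductSpace
open scoped ComplexConjugate

namespace Q73.Hardy

/-- local expansion -/
theorem expand {𝕜 : Type*} [RCLike 𝕜] {f : 𝕜 → 𝕜} {f' a : 𝕜} (hf : HasStrictDerivAt f f' a)
    (h : f' ≠ 0) : ∃ r > 0, ∀ x ∈ ball a r, ∀ y ∈ ball a r,
      ‖f'‖ / 2 * ‖x - y‖ ≤ ‖f x - f y‖ := by
  have h0 : 0 < ‖f'‖ := norm_pos_iff.2 h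
  have h1 := hf.isLittleO.def (show 0 < ‖f'‖ / 2 by linarith)
  obtain ⟨r, hr, hsub⟩ := Metric.eventually_nhds_iff.1 h1
  refine ⟨r, hr, fun x hx y hy => ?_⟩
  have h2 := hsub (y := (x, y)) (by
    rw [Prod.dist_eq, max_lt_iff]
    exact ⟨hx, hy⟩)
  simp only at h2
  have h3 : ‖f'‖ * ‖x - y‖ ≤ ‖f x - f y‖ + ‖f x - f y - ContinuousLinearMap.toSpanSingleton 𝕜 f' (x - y)‖ := by
    calc ‖f'‖ * ‖x - y‖ = ‖(f x - f y) -
          (f x - f y - ContinuousLinearMap.toSpanSingleton 𝕜 f' (x - y))‖ := by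
          rw [sub_sub_cancel, ContinuousLinearMap.toSpanSingleton_apply, norm_smul, mul_comm]
      _ ≤ _ := norm_sub_le _ _
  linarith

theorem L_iter (z : ℂ) (n : ℕ) : L (10 ^ n * z) = q^[n] (L z) := by
  induction n with
  | zero => simp
  | succ n ih =>
    rw [Function.iterate_succ_apply', ← ih, ← L_eq, pow_succ]
    congr 1
    ring

theorem L_mem {z : ℂ} (h : L (10 * z) ∈ K) : L z ∈ K := by
  rw [L_eq] at h
  exact mem_of_q h

theorem L_mem' {z : ℂ} (h : L z ∈ K) : L (10 * z) ∈ K := by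
  rw [L_eq]
  exact q_mem h

theorem L_mem_div {z : ℂ} (h : L z ∈ K) (n : ℕ) : L (z / 10 ^ n) ∈ K := by
  induction n with
  | zero => simpa using h
  | succ n ih =>
    apply L_mem
    have : 10 * (z / 10 ^ (n + 1)) = z / 10 ^ n := by
      rw [pow_succ]; field_simp
    rwa [this]

theorem div_tendsto (z : ℂ) : Tendsto (fun n : ℕ => z / 10 ^ n) atTop (𝓝 0) := by
  have h1 : Tendsto (fun n : ℕ => z * (1 / 10 : ℂ) ^ n) atTop (𝓝 (z * 0)) :=
    (tendsto_pow_atTop_nhds_zero_of_norm_lt_one (by norm_num)).const_mul z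
  rw [mul_zero] at h1
  refine h1.congr fun n => ?_
  rw [one_div, inv_pow, div_eq_mul_inv]

theorem L'_zero : deriv L 0 ≠ 0 := by
  intro h
  have h1 : HasDerivAt L 0 0 := by
    have := (L_diff 0).hasDerivAt
    rwa [h] at this
  have h2 : HasDerivAt (fun t : ℝ => (L t).re) 0 0 := by
    have h3 : HasDerivAt L 0 ((0 : ℝ) : ℂ) := by simpa using h1
    simpa using h3.real_of_complex
  have h3 := h2.tendsto_slope
  have h4 : Tendsto (slope (fun t : ℝ => (L t).re) 0) (𝓝[>] 0) (𝓝 0) :=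
    h3.mono_left (nhdsWithin_mono _ fun t ht => ne_of_gt ht)
  have h5 : ∀ᶠ t : ℝ in 𝓝[>] 0, (1 : ℝ) ≤ slope (fun t : ℝ => (L t).re) 0 t := by
    filter_upwards [self_mem_nhdsWithin] with t ht
    have ht' : (0 : ℝ) < t := ht
    rw [slope_def_field, sub_zero, le_div_iff₀ ht']
    have h6 := L_ge ht'.le
    rw [ofReal_zero, L_zero]
    simp only [Complex.re_ofNat]
    linarith
  have := ge_of_tendsto h4 h5
  linarith

/-- the preimage of the Julia set lies on the negative real axis -/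
theorem E_im {z : ℂ} (h : L z ∈ K) : z.im = 0 := by
  have hs : HasStrictDerivAt L (deriv L 0) 0 :=
    (L_diff.analyticAt 0).hasStrictDerivAt
  obtain ⟨r, hr, hexp⟩ := expand hs L'_zero
  obtain ⟨n, hn⟩ := ((div_tendsto z).eventually (ball_mem_nhds 0 hr)).exists
  set ε := z / 10 ^ n with hε
  have hn' : ε ∈ ball (0 : ℂ) r := hn
  have h1 : L ε ∈ K := L_mem_div h n
  have h2 : conj ε ∈ ball (0 : ℂ) r := by
    rw [mem_ball_zero_iff] at hn' ⊢
    rwa [Complex.norm_conj]
  have h3 : L (conj ε) = L ε := by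
    rw [L_conj, K_eq_re h1, Complex.conj_ofReal]
  have h4 := hexp _ h2 _ hn'
  rw [h3, sub_self, norm_zero] at h4
  have h5 : 0 < ‖deriv L 0‖ := norm_pos_iff.2 L'_zero
  have h6 : ‖conj ε - ε‖ = 0 := by
    have h7 := norm_nonneg (conj ε - ε)
    nlinarith
  rw [norm_eq_zero, sub_eq_zero, Complex.conj_eq_iff_im] at h6
  have h8 : ε.im = z.im / 10 ^ n := by
    have : (10 : ℂ) ^ n = ((10 ^ n : ℝ) : ℂ) := by push_cast; rfl
    rw [hε, this, Complex.div_ofReal_im]
  rw [h8, div_eq_zero_iff] at h6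
  rcases h6 with h6 | h6
  · exact h6
  · exact absurd h6 (by positivity)

theorem E_real_pos {x : ℝ} (hx : 0 < x) : L x ∉ K := by
  intro h
  have h1 : ∀ n : ℕ, ((10 : ℝ) ^ n * x) ≤ 1 := by
    intro n
    have h2 : L ((10 ^ n * x : ℝ) : ℂ) ∈ K := by
      have h3 : ((10 ^ n * x : ℝ) : ℂ) = 10 ^ n * (x : ℂ) := by push_cast; rfl
      rw [h3, L_iter]
      intro m
      rw [← Function.iterate_add_apply]
      exact h (m + n)
    have h3 := h2 0
    simp only [Function.iterate_zero, id_eq] at h3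
    have h4 := L_ge (x := 10 ^ n * x) (by positivity)
    have h5 := Complex.re_le_norm (L ((10 ^ n * x : ℝ) : ℂ))
    linarith
  obtain ⟨n, hn⟩ := pow_unbounded_of_one_lt (1 / x) (show (1 : ℝ) < 10 by norm_num)
  rw [div_lt_iff₀ hx] at hn
  linarith [h1 n]

theorem E_re {z : ℂ} (h : L z ∈ K) : z.re ≤ 0 := by
  by_contra h0
  have h1 : z = (z.re : ℂ) := Complex.ext (by simp) (by simp [E_im h])
  rw [h1] at h
  exact E_real_pos (not_le.1 h0) h

theorem L'_eq (z : ℂ) : 10 * deriv L (10 * z) = 2 * L z * deriv L z := by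
  have h1 : HasDerivAt (fun w => L (10 * w)) (deriv L (10 * z) * 10) z := by
    have h2 : HasDerivAt (fun w : ℂ => 10 * w) 10 z := by
      simpa using (hasDerivAt_id z).const_mul 10
    exact (L_diff (10 * z)).hasDerivAt.comp z h2
  have h2 : HasDerivAt (fun w => q (L w)) (2 * L z * deriv L z) z := by
    have h3 : HasDerivAt (fun w => L w ^ 2 - 20) (((2 : ℕ) : ℂ) * L z ^ (2 - 1) * deriv L z) z :=
      ((L_diff z).hasDerivAt.pow 2).sub_const 20
    have h4 : (fun w => q (L w)) = fun w => L w ^ 2 - 20 := rfl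
    rw [h4]
    convert h3 using 1
    norm_num
  have h3 : (fun w => L (10 * w)) = fun w => q (L w) := funext L_eq
  rw [h3] at h1
  have := h1.unique h2
  rw [mul_comm, this]

theorem K_ne_zero {z : ℂ} (h : z ∈ K) : z ≠ 0 := by
  rintro rfl
  have := K_re h
  simp at this
  linarith

/-- the Poincare function has no critical points over the Julia set -/
theorem L'_ne {z : ℂ} (h : L z ∈ K) : deriv L z ≠ 0 := by
  intro h0
  have key : ∀ n : ℕ, deriv L (z / 10 ^ n) = 0 := by
    intro n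
    induction n with
    | zero => simpa using h0
    | succ n ih =>
      have h1 := L'_eq (z / 10 ^ (n + 1))
      have h2 : 10 * (z / 10 ^ (n + 1)) = z / 10 ^ n := by
        rw [pow_succ]; field_simp
      rw [h2, ih, mul_zero] at h1
      have h3 := K_ne_zero (L_mem_div h (n + 1))
      rcases mul_eq_zero.1 h1.symm with h4 | h4
      · rcases mul_eq_zero.1 h4 with h5 | h5
        · norm_num at h5
        · exact absurd h5 h3
      · exact h4
  have h1 : Continuous (deriv L) :=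
    (L_diff.contDiff (n := 1)).continuous_deriv le_rfl
  have h2 := (h1.tendsto 0).comp (div_tendsto z)
  have h3 : deriv L 0 = 0 := by
    refine tendsto_nhds_unique h2 ?_
    have : (deriv L ∘ fun n : ℕ => z / 10 ^ n) = fun _ => 0 := funext key
    rw [this]
    exact tendsto_const_nhds
  exact L'_zero h3

end Q73.Hardy
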