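import Pool.Agent.Q73.Hd.Up
import Pool.Agent.Q73.Hd.Const
import Pool.Agent.H18R3.Refl

/-!
# Removability of small subsets of a real interval
-/

set_option autoImplicit false

open Complex MeasureTheory Set Filter Topology Metric intervalIntegral Measure
open scoped ComplexConjugate Interval

namespace Q73.Hardy

/-- the reflected function -/
noncomputable def cf (f : ℂ → ℂ) (z : ℂ) : ℂ := conj (f (conj z))

/-- `f` is holomorphic on a square about `0`, off the part `T` of the real axis, of growth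
`C |y| ^ (-1/2)` at the real axis, and `T` is small. -/
structure Two (f : ℂ → ℂ) (s C : ℝ) (T : Set ℝ) : Prop where
  up : Up f s C
  low : Up (cf f) s C
  mid : ∀ x : ℝ, |x| ≤ s → x ∉ T → DifferentiableAt ℂ f x
  null : μH[1 / 2] (T ∩ Icc (-s) s) = 0
  closed : IsClosed T

variable {f : ℂ → ℂ} {s C : ℝ} {T : Set ℝ}

theorem int_conj (g : ℝ → ℂ) (a b : ℝ) :
    ∫ t in a..b, conj (g t) = conj (∫ t in a..b, g t) := by
  simp only [intervalIntegral, _root_.integral_conj, map_sub]

theorem conj_line (x τ : ℝ) : conj ((x : ℂ) + (τ : ℂ) * I) = (x : ℂ) + ((-τ : ℝ) : ℂ) * I := by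
  simp

theorem Two.int_low (h : Two f s C T) {x : ℝ} (hx : |x| ≤ s) :
    IntervalIntegrable (fun τ : ℝ => f ((x : ℂ) + (τ : ℂ) * I)) volume (-s) 0 := by
  have h1 := (h.low.int_vert hx)
  have h2 : IntervalIntegrable (fun τ : ℝ => f ((x : ℂ) + ((-τ : ℝ) : ℂ) * I)) volume 0 s := by
    have h3 : IntervalIntegrable (fun τ : ℝ => conj (cf f ((x : ℂ) + (τ : ℂ) * I))) volume 0 s :=
      ⟨(Complex.conjCLE.toContinuousLinearMap.integrable_comp h1.1),
        (Complex.conjCLE.toContinuousLinearMap.integrable_comp h1.2)⟩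
    refine h3.congr (fun τ _ => ?_)
    simp only [cf, Complex.conj_conj, conj_line]
  have h4 := (IntervalIntegrable.iff_comp_neg (f := fun τ : ℝ => f ((x : ℂ) + ((-τ : ℝ) : ℂ) * I))
    (by finiteness)).1 h2
  simp only [neg_neg, neg_zero] at h4
  exact h4.symm

theorem Two.int_all (h : Two f s C T) {x a b : ℝ} (hx : |x| ≤ s) (ha : |a| ≤ s) (hb : |b| ≤ s) :
    IntervalIntegrable (fun τ : ℝ => f ((x : ℂ) + (τ : ℂ) * I)) volume a b := by
  refine ((h.int_low hx).trans (h.up.int_vert hx)).mono_set ?_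
  have hs := h.up.s_pos
  rw [uIcc_of_le (a := -s) (b := s) (by linarith)]
  exact uIcc_subset_Icc (abs_le.1 ha) (abs_le.1 hb)

theorem Two.diff_low (h : Two f s C T) {z : ℂ} (h1 : |z.re| ≤ s) (h2 : z.im < 0)
    (h3 : -s ≤ z.im) : DifferentiableAt ℂ f z := by
  have h4 := h.low.diff (conj z) (by simpa using h1) (by simpa using h2)
    (by simp only [conj_im]; linarith)
  have h5 : cf f = conj ∘ f ∘ conj := rfl
  rw [h5, differentiableAt_conj_conj_iff, Complex.conj_conj] at h4
  exact h4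

theorem Two.diff_all (h : Two f s C T) {z : ℂ} (h1 : |z.re| ≤ s) (h2 : |z.im| ≤ s)
    (h3 : z.im ≠ 0 ∨ z.re ∉ T) : DifferentiableAt ℂ f z := by
  rw [abs_le] at h2
  rcases lt_trichotomy z.im 0 with h4 | h4 | h4
  · exact h.diff_low h1 h4 h2.1
  · have h5 : z = (z.re : ℂ) := Complex.ext (by simp) (by simp [h4])
    rw [h5]
    exact h.mid _ h1 (h3.resolve_left (fun h => h h4))
  · exact h.up.diff z h1 h4 h2.2

/-- vertical integrals near the real axis are small -/
theorem Two.vert_bound (h : Two f s C T) {x y : ℝ} (hx : |x| ≤ s) (hy : |y| ≤ s) :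
    ‖∫ τ in (0 : ℝ)..y, f ((x : ℂ) + (τ : ℂ) * I)‖ ≤ 2 * C * √|y| := by
  rcases le_total 0 y with h0 | h0
  · rw [abs_of_nonneg h0] at hy ⊢
    exact h.up.vert_bound hx h0 hy
  · rw [abs_of_nonpos h0] at hy ⊢
    have h1 := h.low.vert_bound hx (neg_nonneg.2 h0) hy
    have h2 : ∫ τ in (0 : ℝ)..(-y), cf f ((x : ℂ) + (τ : ℂ) * I) =
        conj (-∫ τ in (0 : ℝ)..y, f ((x : ℂ) + (τ : ℂ) * I)) := by
      simp only [cf, conj_line, int_conj]
      rw [intervalIntegral.integral_comp_neg (fun τ : ℝ => f ((x : ℂ) + (τ : ℂ) * I)), neg_neg,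
        neg_zero, intervalIntegral.integral_symm]
    rw [h2] at h1
    simpa using h1

/-- the limit of the integrals of `f` along `[x, x'] - i y`, as `y → 0` -/
noncomputable def B (f : ℂ → ℂ) (s x x' : ℝ) : ℂ :=
  (∫ t in x..x', f ((t : ℂ) + ((-s : ℝ) : ℂ) * I)) +
    I * (∫ τ in (-s)..(0 : ℝ), f ((x' : ℂ) + (τ : ℂ) * I)) -
    I * (∫ τ in (-s)..(0 : ℝ), f ((x : ℂ) + (τ : ℂ) * I))

theorem conj_A (x x' : ℝ) : conj (A (cf f) s x x') = B f s x x' := by
  unfold A B
  simp only [cf, conj_line]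
  simp only [int_conj, map_add, map_sub, map_mul, Complex.conj_I, Complex.conj_conj]
  rw [intervalIntegral.integral_comp_neg (fun τ : ℝ => f ((x : ℂ) + (τ : ℂ) * I)),
    intervalIntegral.integral_comp_neg (fun τ : ℝ => f ((x' : ℂ) + (τ : ℂ) * I)), neg_zero]
  ring

theorem Two.B_bound (h : Two f s C T) {x x' : ℝ} (hx : |x| ≤ s) (hx' : |x'| ≤ s) :
    ‖B f s x x'‖ ≤ 6 * C * √|x - x'| := by
  rw [← conj_A]
  have := h.low.A_bound hx hx'
  rwa [Complex.norm_conj]

theorem Two.B_add (h : Two f s C T) {x y z : ℝ} (hx : |x| ≤ s) (hy : |y| ≤ s) (hz : |z| ≤ s) :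
    B f s x y + B f s y z = B f s x z := by
  rw [← conj_A, ← conj_A, ← conj_A, ← map_add, h.low.A_add hx hy hz]

theorem Two.int_low_hor (h : Two f s C T) {x x' : ℝ} (hx : |x| ≤ s) (hx' : |x'| ≤ s) :
    IntervalIntegrable (fun t : ℝ => f ((t : ℂ) + ((-s : ℝ) : ℂ) * I)) volume x x' := by
  apply ContinuousOn.intervalIntegrable
  intro t ht
  have hs := h.up.s_pos
  refine ((h.diff_low (z := (t : ℂ) + ((-s : ℝ) : ℂ) * I) ?_ ?_ ?_).continuousAt.comp
    (f := fun t : ℝ => ((t : ℂ) + ((-s : ℝ) : ℂ) * I)) (by fun_prop)).continuousWithinAt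
  · rw [re_line]; exact abs_le_of_mem_uIcc hx hx' ht
  · rw [im_line]; linarith
  · rw [im_line]

/-- Cauchy's theorem across a gap of `T` -/
theorem Two.gap (h : Two f s C T) {x x' : ℝ} (hx : |x| ≤ s) (hx' : |x'| ≤ s)
    (hT : ∀ t ∈ [[x, x']], t ∉ T) : A f s x x' = B f s x x' := by
  have hs := h.up.s_pos
  have hss : |s| ≤ s := by rw [abs_of_pos hs]
  have hns : |(-s)| ≤ s := by rw [abs_neg, abs_of_pos hs]
  have h00 : |(0 : ℝ)| ≤ s := by rw [abs_zero]; exact hs.le
  have hR := integral_boundary_rect_eq_zero_of_differentiableOn f ((x : ℂ) + ((-s : ℝ) : ℂ) * I)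
    ((x' : ℂ) + (s : ℂ) * I) (by
      intro z hz
      rw [mem_reProdIm, re_line, re_line, im_line, im_line,
        uIcc_of_le (a := -s) (b := s) (by linarith)] at hz
      exact (h.diff_all (abs_le_of_mem_uIcc hx hx' hz.1) (abs_le.2 hz.2)
        (Or.inr (hT _ hz.1))).differentiableWithinAt)
  simp only [re_line, im_line, smul_eq_mul] at hR
  have e1 := integral_add_adjacent_intervals (h.int_all hx hns h00) (h.int_all hx h00 hss)
  have e2 := integral_add_adjacent_intervals (h.int_all hx' hns h00) (h.int_all hx' h00 hss)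
  rw [← e1, ← e2] at hR
  unfold A B
  linear_combination -hR

/-- the jump vanishes -/
theorem Two.jump (h : Two f s C T) {x x' : ℝ} (hx : |x| ≤ s) (hx' : |x'| ≤ s) :
    A f s x x' = B f s x x' := by
  have hs := h.up.s_pos
  have h00 : |(0 : ℝ)| ≤ s := by rw [abs_zero]; exact hs.le
  have hC := h.up.C_nonneg
  have hdiff : ∀ a b : ℝ, |a| ≤ s → |b| ≤ s →
      (A f s 0 b - B f s 0 b) - (A f s 0 a - B f s 0 a) = A f s a b - B f s a b := by
    intro a b ha hb
    rw [← h.up.A_add h00 ha hb, ← h.B_add h00 ha hb]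
    ring
  have hconst := const_complex (a := -s) (b := s) (K := 12 * C) (T := T)
    (p := fun x => A f s 0 x - B f s 0 x) (by linarith) (by
      intro x hx y hy
      have hx' := abs_le.2 hx
      have hy' := abs_le.2 hy
      have e := hdiff y x hy' hx'
      rw [e]
      have b1 := h.up.A_bound hy' hx'
      have b2 := h.B_bound hy' hx'
      rw [abs_sub_comm] at b1 b2
      calc ‖A f s y x - B f s y x‖ ≤ ‖A f s y x‖ + ‖B f s y x‖ := norm_sub_le _ _
        _ ≤ 12 * C * √|x - y| := by linarith) h.null (by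
      intro x hx hxT
      obtain ⟨ε, hε, hsub⟩ := Metric.isOpen_iff.1 h.closed.isOpen_compl x hxT
      filter_upwards [inter_mem_nhdsWithin (Icc (-s) s) (ball_mem_nhds x hε)] with y hy
      have hx' := abs_le.2 hx
      have hy' := abs_le.2 hy.1
      have e := hdiff x y hx' hy'
      have e2 : A f s x y = B f s x y := by
        apply h.gap hx' hy'
        intro t ht
        apply hsub
        have h5 : t ∈ Icc (x - |y - x|) (x + |y - x|) := by
          rw [mem_uIcc] at ht
          rcases ht with ⟨a1, a2⟩ | ⟨a1, a2⟩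
          · rw [abs_of_nonneg (by linarith)]; exact ⟨by linarith, by linarith⟩
          · rw [abs_of_nonpos (by linarith)]; exact ⟨by linarith, by linarith⟩
        have h6 := hy.2
        rw [mem_ball, Real.dist_eq] at h6 ⊢
        rw [abs_lt]
        exact ⟨by linarith [h5.1], by linarith [h5.2]⟩
      rw [e2, sub_self, sub_eq_zero] at e
      exact e)
  have e := hconst x' (abs_le.1 hx') x (abs_le.1 hx)
  have e2 := hdiff x x' hx hx'
  rw [e, sub_self] at e2
  exact (sub_eq_zero.1 e2.symm)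

/-- Cauchy's theorem for the rectangles with the lower side at the height `-s` -/
theorem Two.rect (h : Two f s C T) {x x' y : ℝ} (hx : |x| ≤ s) (hx' : |x'| ≤ s) (hy : |y| ≤ s)
    (hy0 : y ≠ 0) :
    (∫ t in x..x', f ((t : ℂ) + ((-s : ℝ) : ℂ) * I)) - (∫ t in x..x', f ((t : ℂ) + (y : ℂ) * I)) +
      I * (∫ τ in (-s)..y, f ((x' : ℂ) + (τ : ℂ) * I)) -
      I * (∫ τ in (-s)..y, f ((x : ℂ) + (τ : ℂ) * I)) = 0 := by
  have hs := h.up.s_pos
  have hns : |(-s)| ≤ s := by rw [abs_neg, abs_of_pos hs]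
  have h00 : |(0 : ℝ)| ≤ s := by rw [abs_zero]; exact hs.le
  rcases lt_or_gt_of_ne hy0 with h0 | h0
  · rw [abs_le] at hy
    have hR := integral_boundary_rect_eq_zero_of_differentiableOn f
      ((x : ℂ) + ((-s : ℝ) : ℂ) * I) ((x' : ℂ) + (y : ℂ) * I) (by
        intro z hz
        rw [mem_reProdIm, re_line, re_line, im_line, im_line,
          uIcc_of_le (a := -s) (b := y) (by linarith)] at hz
        exact (h.diff_low (abs_le_of_mem_uIcc hx hx' hz.1) (hz.2.2.trans_lt h0)
          hz.2.1).differentiableWithinAt)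
    simp only [re_line, im_line, smul_eq_mul] at hR
    exact hR
  · have e := h.jump hx hx'
    rw [h.up.A_eq hx hx' h0 (abs_le.1 hy).2] at e
    have e1 := integral_add_adjacent_intervals (h.int_all hx hns h00) (h.int_all hx h00 hy)
    have e2 := integral_add_adjacent_intervals (h.int_all hx' hns h00) (h.int_all hx' h00 hy)
    rw [← e1, ← e2]
    unfold B at e
    linear_combination -e

/-- the primitive -/
noncomputable def G (f : ℂ → ℂ) (s : ℝ) (z : ℂ) : ℂ :=
  (∫ t in (0 : ℝ)..z.re, f ((t : ℂ) + ((-s : ℝ) : ℂ) * I)) +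
    I * (∫ τ in (-s)..z.im, f ((z.re : ℂ) + (τ : ℂ) * I))

theorem re_im_lt {z : ℂ} (hz : z ∈ ball (0 : ℂ) s) : |z.re| ≤ s ∧ |z.im| ≤ s := by
  rw [mem_ball_zero_iff] at hz
  exact ⟨(abs_re_le_norm z).trans hz.le, (abs_im_le_norm z).trans hz.le⟩

theorem Two.hasDerivAt_G (h : Two f s C T) {z : ℂ} (hz : z ∈ ball (0 : ℂ) s) (h0 : z.im ≠ 0) :
    HasDerivAt (G f s) (f z) z := by
  have hs := h.up.s_pos
  have hns : |(-s)| ≤ s := by rw [abs_neg, abs_of_pos hs]
  have h00 : |(0 : ℝ)| ≤ s := by rw [abs_zero]; exact hs.le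
  have hopen : IsOpen (ball (0 : ℂ) s ∩ {w : ℂ | w.im ≠ 0}) :=
    isOpen_ball.inter (isOpen_ne_fun Complex.continuous_im continuous_const)
  obtain ⟨ε, hε, hsub⟩ := Metric.isOpen_iff.1 hopen z ⟨hz, h0⟩
  have hd : DifferentiableOn ℂ f (ball z ε) := by
    intro w hw
    obtain ⟨h1, h2⟩ := hsub hw
    exact (h.diff_all (re_im_lt h1).1 (re_im_lt h1).2 (Or.inl h2)).differentiableWithinAt
  have hW := hd.isConservativeOn.hasDerivAt_wedgeIntegral hd.continuousOn (mem_ball_self hε)
  have hEq : G f s =ᶠ[𝓝 z] fun w => G f s z + wedgeIntegral z w f := by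
    filter_upwards [ball_mem_nhds z hε] with w hw
    obtain ⟨h1, -⟩ := hsub hw
    obtain ⟨hzr, hzi⟩ := re_im_lt hz
    obtain ⟨hwr, hwi⟩ := re_im_lt h1
    have e := h.rect hzr hwr hzi h0
    have e1 := integral_add_adjacent_intervals (h.int_low_hor h00 hzr) (h.int_low_hor hzr hwr)
    have e2 := integral_add_adjacent_intervals (h.int_all hwr hns hzi) (h.int_all hwr hzi hwi)
    unfold G wedgeIntegral
    rw [← e1, ← e2]
    simp only [smul_eq_mul]
    linear_combination e
  exact (hW.const_add (G f s z)).congr_of_eventuallyEq hEq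

theorem Two.continuousOn_G (h : Two f s C T) : ContinuousOn (G f s) (ball (0 : ℂ) s) := by
  have hs := h.up.s_pos
  have hns : |(-s)| ≤ s := by rw [abs_neg, abs_of_pos hs]
  have h00 : |(0 : ℝ)| ≤ s := by rw [abs_zero]; exact hs.le
  intro z hz
  by_cases h0 : z.im = 0
  · obtain ⟨hzr, hzi⟩ := re_im_lt hz
    apply ContinuousAt.continuousWithinAt
    rw [ContinuousAt, tendsto_iff_norm_sub_tendsto_zero]
    have hb : ∀ᶠ w in 𝓝 z, ‖G f s w - G f s z‖ ≤
        6 * C * √|z.re - w.re| + 2 * C * √|w.im| := by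
      filter_upwards [isOpen_ball.mem_nhds hz] with w hw
      obtain ⟨hwr, hwi⟩ := re_im_lt hw
      have e1 := integral_add_adjacent_intervals (h.int_low_hor h00 hzr) (h.int_low_hor hzr hwr)
      have e2 := integral_add_adjacent_intervals (h.int_all hwr hns h00) (h.int_all hwr h00 hwi)
      have e3 : G f s w - G f s z = B f s z.re w.re +
          I * ∫ τ in (0 : ℝ)..w.im, f ((w.re : ℂ) + (τ : ℂ) * I) := by
        unfold G B
        rw [← e1, ← e2, h0]
        ring
      rw [e3]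
      refine (norm_add_le _ _).trans (add_le_add (h.B_bound hzr hwr) ?_)
      rw [norm_mul, norm_I, one_mul]
      exact h.vert_bound hwr hwi
    refine squeeze_zero' (Filter.Eventually.of_forall fun w => norm_nonneg _) hb ?_
    have hc : Continuous fun w : ℂ => 6 * C * √|z.re - w.re| + 2 * C * √|w.im| := by
      have := Complex.continuous_re
      have := Complex.continuous_im
      fun_prop
    have h3 := hc.tendsto z
    simp only [sub_self, abs_zero, Real.sqrt_zero, mul_zero, h0, add_zero] at h3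
    exact h3
  · exact (h.hasDerivAt_G hz h0).continuousAt.continuousWithinAt

/-- **removability** -/
theorem Two.removable (h : Two f s C T) : ∃ F : ℂ → ℂ, DifferentiableOn ℂ F (ball 0 s) ∧
    ∀ z ∈ ball (0 : ℂ) s, (z.im ≠ 0 ∨ z.re ∉ T) → F z = f z := by
  have hs := h.up.s_pos
  have hG : DifferentiableOn ℂ (G f s) (ball 0 s) := by
    apply Pool.Agent.H18R3.holo_of_continuous h.continuousOn_G
    rintro z ⟨hz, h0⟩
    exact (h.hasDerivAt_G hz h0).differentiableAt.differentiableWithinAt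
  have hF : DifferentiableOn ℂ (deriv (G f s)) (ball 0 s) := hG.deriv isOpen_ball
  refine ⟨deriv (G f s), hF, ?_⟩
  intro z hz hT
  by_cases h0 : z.im = 0
  · have h1 : ContinuousAt f z :=
      (h.diff_all (re_im_lt hz).1 (re_im_lt hz).2 hT).continuousAt
    have h2 : ContinuousAt (deriv (G f s)) z :=
      (hF.differentiableAt (isOpen_ball.mem_nhds hz)).continuousAt
    have hpath : Tendsto (fun t : ℝ => z + (t : ℂ) * I) (𝓝[≠] 0) (𝓝 z) := by
      have : Tendsto (fun t : ℝ => z + (t : ℂ) * I) (𝓝 0) (𝓝 (z + ((0 : ℝ) : ℂ) * I)) :=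
        Continuous.tendsto (by fun_prop) 0
      simp only [ofReal_zero, zero_mul, add_zero] at this
      exact this.mono_left nhdsWithin_le_nhds
    refine tendsto_nhds_unique (h2.tendsto.comp hpath) ((h1.tendsto.comp hpath).congr' ?_)
    have h3 : ∀ᶠ t : ℝ in 𝓝[≠] 0, z + (t : ℂ) * I ∈ ball (0 : ℂ) s :=
      hpath (isOpen_ball.mem_nhds hz)
    filter_upwards [h3, self_mem_nhdsWithin] with t ht ht0
    simp only [Function.comp_apply]
    rw [(h.hasDerivAt_G ht _).deriv]
    simp only [add_im, mul_im, ofReal_re, I_im, mul_one, ofReal_im, I_re, mul_zero, add_zero, h0,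
      zero_add]
    exact ht0
  · exact (h.hasDerivAt_G hz h0).deriv

end Q73.Hardy
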