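import Mathlib

/-!
# Boundary integrals of holomorphic functions of moderate growth near a real interval
-/

set_option autoImplicit false

open Complex MeasureTheory Set Filter Topology Metric intervalIntegral
open scoped ComplexConjugate Interval

namespace Q73.Hardy

/-- `f` is holomorphic above the real interval `[-s, s]`, of growth `C y ^ (-1/2)`. -/
structure Up (f : ℂ → ℂ) (s C : ℝ) : Prop where
  s_pos : 0 < s
  C_nonneg : 0 ≤ C
  diff : ∀ z : ℂ, |z.re| ≤ s → 0 < z.im → z.im ≤ s → DifferentiableAt ℂ f z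
  bd : ∀ z : ℂ, |z.re| ≤ s → 0 < z.im → z.im ≤ s → ‖f z‖ ≤ C * z.im ^ (-(1 / 2) : ℝ)

variable {f : ℂ → ℂ} {s C : ℝ}

theorem re_line (a b : ℝ) : ((a : ℂ) + (b : ℂ) * I).re = a := by simp

theorem im_line (a b : ℝ) : ((a : ℂ) + (b : ℂ) * I).im = b := by simp

theorem Up.bd' (h : Up f s C) {x τ : ℝ} (hx : |x| ≤ s) (h0 : 0 < τ) (h1 : τ ≤ s) :
    ‖f ((x : ℂ) + (τ : ℂ) * I)‖ ≤ C * τ ^ (-(1 / 2) : ℝ) := by
  have := h.bd ((x : ℂ) + (τ : ℂ) * I) (by rwa [re_line]) (by rwa [im_line]) (by rwa [im_line])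
  rwa [im_line] at this

theorem Up.diff' (h : Up f s C) {x τ : ℝ} (hx : |x| ≤ s) (h0 : 0 < τ) (h1 : τ ≤ s) :
    DifferentiableAt ℂ f ((x : ℂ) + (τ : ℂ) * I) :=
  h.diff _ (by rwa [re_line]) (by rwa [im_line]) (by rwa [im_line])

theorem Up.int_vert (h : Up f s C) {x : ℝ} (hx : |x| ≤ s) :
    IntervalIntegrable (fun τ : ℝ => f ((x : ℂ) + (τ : ℂ) * I)) volume 0 s := by
  have hg : IntervalIntegrable (fun τ : ℝ => C * τ ^ (-(1 / 2) : ℝ)) volume 0 s :=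
    (intervalIntegrable_rpow' (by norm_num)).const_mul C
  refine hg.mono_fun' ?_ ?_
  · rw [uIoc_of_le h.s_pos.le]
    refine ContinuousOn.aestronglyMeasurable ?_ measurableSet_Ioc
    intro τ hτ
    exact ((h.diff' hx hτ.1 hτ.2).continuousAt.comp (f := fun τ : ℝ => ((x : ℂ) + (τ : ℂ) * I))
      (by fun_prop)).continuousWithinAt
  · rw [uIoc_of_le h.s_pos.le]
    refine (ae_restrict_mem measurableSet_Ioc).mono fun τ hτ => ?_
    exact h.bd' hx hτ.1 hτ.2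

theorem Up.int_vert' (h : Up f s C) {x a b : ℝ} (hx : |x| ≤ s) (ha : a ∈ Icc 0 s)
    (hb : b ∈ Icc 0 s) :
    IntervalIntegrable (fun τ : ℝ => f ((x : ℂ) + (τ : ℂ) * I)) volume a b := by
  refine (h.int_vert hx).mono_set ?_
  rw [uIcc_of_le h.s_pos.le]
  exact uIcc_subset_Icc ha hb

theorem Up.vert_bound (h : Up f s C) {x δ : ℝ} (hx : |x| ≤ s) (h0 : 0 ≤ δ) (h1 : δ ≤ s) :
    ‖∫ τ in (0 : ℝ)..δ, f ((x : ℂ) + (τ : ℂ) * I)‖ ≤ 2 * C * √δ := by
  have hg : IntervalIntegrable (fun τ : ℝ => C * τ ^ (-(1 / 2) : ℝ)) volume 0 δ :=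
    (intervalIntegrable_rpow' (by norm_num)).const_mul C
  have h2 := norm_integral_le_of_norm_le (f := fun τ : ℝ => f ((x : ℂ) + (τ : ℂ) * I)) h0
    (Filter.Eventually.of_forall fun τ hτ => h.bd' hx hτ.1 (hτ.2.trans h1)) hg
  refine h2.trans (le_of_eq ?_)
  rw [intervalIntegral.integral_const_mul, integral_rpow (Or.inl (by norm_num)), Real.sqrt_eq_rpow]
  have e : (-(1 / 2) + 1 : ℝ) = 1 / 2 := by norm_num
  rw [e, Real.zero_rpow (by norm_num)]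
  ring

/-- the limit of the integrals of `f` along `[x, x'] + i y`, as `y → 0` -/
noncomputable def A (f : ℂ → ℂ) (s x x' : ℝ) : ℂ :=
  (∫ t in x..x', f ((t : ℂ) + (s : ℂ) * I)) - I * (∫ τ in (0 : ℝ)..s, f ((x' : ℂ) + (τ : ℂ) * I)) +
    I * (∫ τ in (0 : ℝ)..s, f ((x : ℂ) + (τ : ℂ) * I))

theorem abs_le_of_mem_uIcc {x x' t : ℝ} (hx : |x| ≤ s) (hx' : |x'| ≤ s) (ht : t ∈ [[x, x']]) :
    |t| ≤ s := by
  rw [abs_le] at hx hx' ⊢
  exact uIcc_subset_Icc (a₂ := -s) (b₂ := s) ⟨hx.1, hx.2⟩ ⟨hx'.1, hx'.2⟩ ht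

theorem Up.A_eq (h : Up f s C) {x x' δ : ℝ} (hx : |x| ≤ s) (hx' : |x'| ≤ s) (h0 : 0 < δ)
    (h1 : δ ≤ s) :
    A f s x x' = (∫ t in x..x', f ((t : ℂ) + (δ : ℂ) * I)) -
      I * (∫ τ in (0 : ℝ)..δ, f ((x' : ℂ) + (τ : ℂ) * I)) +
        I * (∫ τ in (0 : ℝ)..δ, f ((x : ℂ) + (τ : ℂ) * I)) := by
  have hR := integral_boundary_rect_eq_zero_of_differentiableOn f ((x : ℂ) + (δ : ℂ) * I)
    ((x' : ℂ) + (s : ℂ) * I) (by
      intro z hz
      rw [mem_reProdIm, re_line, re_line, im_line, im_line, uIcc_of_le h1] at hz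
      exact (h.diff z (abs_le_of_mem_uIcc hx hx' hz.1) (h0.trans_le hz.2.1)
        hz.2.2).differentiableWithinAt)
  simp only [re_line, im_line, smul_eq_mul] at hR
  have i0 : (0 : ℝ) ∈ Icc 0 s := ⟨le_rfl, h.s_pos.le⟩
  have i1 : δ ∈ Icc 0 s := ⟨h0.le, h1⟩
  have i2 : s ∈ Icc 0 s := ⟨h.s_pos.le, le_rfl⟩
  have e1 := integral_add_adjacent_intervals (h.int_vert' hx i0 i1) (h.int_vert' hx i1 i2)
  have e2 := integral_add_adjacent_intervals (h.int_vert' hx' i0 i1) (h.int_vert' hx' i1 i2)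
  unfold A
  rw [← e1, ← e2]
  linear_combination -hR

theorem Up.A_bound (h : Up f s C) {x x' : ℝ} (hx : |x| ≤ s) (hx' : |x'| ≤ s) :
    ‖A f s x x'‖ ≤ 6 * C * √|x - x'| := by
  rcases eq_or_ne x x' with rfl | hne
  · simp [A]
  set δ := |x - x'| / 2 with hδ
  have h0 : 0 < δ := by
    rw [hδ]
    have := abs_pos.2 (sub_ne_zero.2 hne)
    linarith
  have h1 : δ ≤ s := by
    rw [hδ]
    have := abs_sub x x'
    linarith
  rw [h.A_eq hx hx' h0 h1]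
  have b1 : ‖∫ t in x..x', f ((t : ℂ) + (δ : ℂ) * I)‖ ≤ C * δ ^ (-(1 / 2) : ℝ) * |x' - x| := by
    apply intervalIntegral.norm_integral_le_of_norm_le_const
    intro t ht
    exact h.bd' (abs_le_of_mem_uIcc hx hx' (uIoc_subset_uIcc ht)) h0 h1
  have b2 : C * δ ^ (-(1 / 2) : ℝ) * |x' - x| = 2 * C * √δ := by
    rw [abs_sub_comm]
    have e1 : |x - x'| = 2 * δ := by rw [hδ]; ring
    rw [e1, Real.sqrt_eq_rpow]
    have e2 : δ ^ (-(1 / 2) : ℝ) * δ = δ ^ (1 / 2 : ℝ) := by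
      nth_rewrite 2 [← Real.rpow_one δ]
      rw [← Real.rpow_add h0]
      norm_num
    linear_combination (2 * C) * e2
  have b3 := h.vert_bound hx h0.le h1
  have b4 := h.vert_bound hx' h0.le h1
  have b5 : √δ ≤ √|x - x'| := Real.sqrt_le_sqrt (by rw [hδ]; linarith [abs_nonneg (x - x')])
  have hC := h.C_nonneg
  calc _ ≤ ‖∫ t in x..x', f ((t : ℂ) + (δ : ℂ) * I)‖ +
        ‖I * (∫ τ in (0 : ℝ)..δ, f ((x' : ℂ) + (τ : ℂ) * I))‖ +
        ‖I * (∫ τ in (0 : ℝ)..δ, f ((x : ℂ) + (τ : ℂ) * I))‖ :=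
        (norm_add_le _ _).trans (add_le_add_left (norm_sub_le _ _) _)
    _ ≤ 2 * C * √δ + 2 * C * √δ + 2 * C * √δ := by
        rw [norm_mul, norm_mul, norm_I, one_mul, one_mul]
        rw [b2] at b1
        linarith
    _ = 6 * C * √δ := by ring
    _ ≤ 6 * C * √|x - x'| := mul_le_mul_of_nonneg_left b5 (by linarith)

theorem Up.int_hor (h : Up f s C) {x x' δ : ℝ} (hx : |x| ≤ s) (hx' : |x'| ≤ s) (h0 : 0 < δ)
    (h1 : δ ≤ s) : IntervalIntegrable (fun t : ℝ => f ((t : ℂ) + (δ : ℂ) * I)) volume x x' := by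
  apply ContinuousOn.intervalIntegrable
  intro t ht
  exact ((h.diff' (abs_le_of_mem_uIcc hx hx' ht) h0 h1).continuousAt.comp
    (f := fun t : ℝ => ((t : ℂ) + (δ : ℂ) * I)) (by fun_prop)).continuousWithinAt

theorem Up.A_add (h : Up f s C) {x y z : ℝ} (hx : |x| ≤ s) (hy : |y| ≤ s) (hz : |z| ≤ s) :
    A f s x y + A f s y z = A f s x z := by
  have e := integral_add_adjacent_intervals (h.int_hor hx hy h.s_pos le_rfl)
    (h.int_hor hy hz h.s_pos le_rfl)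
  unfold A
  rw [← e]
  ring

end Q73.Hardy
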